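import Mathlib.Data.Real.Basic

/-!
# The numbers of the piece `OL1Br`

The rows `p, r, s`, the class `a`. The witness is the cell `(a; r)`, kind B on `p`. The column `s` has the
known order (the entry of `r` is at most the entry of `p`): there `kpr` is subtracted from `nr`.
-/

set_option autoImplicit false

namespace Pool.Agent.Helper83.OL

/-- the row `p`, `x` its height -/
noncomputable def np (x : ℝ) : ℝ :=
  417 / 800 + 226 / 3125 * x - 31581 / 100000 * x ^ 2

/-- the row `r`, `x` its height -/
noncomputable def nr (x : ℝ) : ℝ :=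
  10477 / 12500 - 23063 / 100000 * x - 16667 / 100000 * x ^ 2

/-- the row `s`, `x` its height -/
noncomputable def ns (x : ℝ) : ℝ :=
  20707 / 25000 - 6043 / 25000 * x - 8333 / 50000 * x ^ 2

/-- the pair `p, r`, `x y` the heights of `p, r` -/
noncomputable def kpr (x y : ℝ) : ℝ :=
  41981 / 100000 - 6999 / 20000 * x - 16911 / 50000 * y + 1439 / 50000 * x * y

/-- the pair `p, s`, `x y` the heights of `p, s` -/
noncomputable def kps (x y : ℝ) : ℝ :=
  1281 / 3125 - 6999 / 20000 * x - 35219 / 100000 * y + 941 / 3125 * x * y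

/-- the pair `r, s`, `x y` the heights of `r, s` -/
noncomputable def krs (x y : ℝ) : ℝ :=
  41649 / 100000 - 7047 / 20000 * x - 7263 / 20000 * y + 8179 / 25000 * x * y

/-- the share of the pair `p, r` in the column `s` -/
noncomputable def mpr (x y : ℝ) : ℝ :=
  2803 / 12500 - 10643 / 50000 * x - 2423 / 10000 * y + 13573 / 100000 * x * y

/-- the share of the pair `p, r` in the column `a` -/
noncomputable def lpr (x y : ℝ) : ℝ := kpr x y - mpr x y

/-- the share of the pair `p, s` in the column `r` -/
noncomputable def mps (x y : ℝ) : ℝ :=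
  8301 / 50000 - 469 / 3125 * x - 11299 / 100000 * y + 2403 / 50000 * x * y

/-- the share of the pair `p, s` in the column `a` -/
noncomputable def lps (x y : ℝ) : ℝ := kps x y - mps x y

/-- the share of the pair `r, s` in the column `p` -/
noncomputable def mrs (x y : ℝ) : ℝ :=
  16249 / 100000 - 163 / 2500 * x - 7753 / 100000 * y - 32 / 625 * x * y

/-- the share of the pair `r, s` in the column `a` -/
noncomputable def lrs (x y : ℝ) : ℝ := krs x y - mrs x y

/-- the bound of the column `p`, `x y` the heights of `r, s` -/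
noncomputable def wp (x y : ℝ) : ℝ :=
  22413 / 50000 + 981 / 2000 * x + 1597 / 3125 * y - 1673 / 12500 * x ^ 2 - 12311 / 100000 * y ^ 2
    + 13111 / 50000 * x * y

/-- the bound of the column `r`, `x y` the heights of `p, s` -/
noncomputable def wr (x y : ℝ) : ℝ :=
  4351 / 50000 + 54769 / 100000 * x + 10789 / 25000 * y - 1973 / 50000 * x ^ 2 - 1411 / 12500 * y
    ^ 2 + 4297 / 100000 * x * y

/-- the bound of the column `s`, `x y` the heights of `p, r` -/
noncomputable def ws (x y : ℝ) : ℝ :=
  463 / 2000 + 38821 / 100000 * x + 11581 / 25000 * y + 253 / 10000 * x ^ 2 - 13403 / 100000 * y ^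
    2 + 10803 / 25000 * x * y

/-- the bound of the column `a`, `x y z` the heights of `p, r, s` -/
noncomputable def wa (x y z : ℝ) : ℝ :=
  45211 / 100000 + 8401 / 25000 * x + 127 / 400 * y - 13239 / 100000 * x ^ 2 + 1223 / 20000 * y ^
    2 + 2769 / 12500 * x * y + 3969 / 12500 * z + 43 / 1000 * z ^ 2 + 4977 / 25000 * x * z +
    3567 / 100000 * y * z

/-- the multiplier of `1 - d` of the witness in the column `r`, `x` the height of `p` -/
noncomputable def sr (x : ℝ) : ℝ :=
  31691 / 100000 - 31303 / 100000 * x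

/-- the gain of the column `p` -/
noncomputable def fp (w : ℝ) : ℝ :=
  10993 / 50000 * w + 173 / 3125 * w ^ 2 + 1403 / 50000 * w ^ 3

/-- the gain of the column `r` -/
noncomputable def fr (w : ℝ) : ℝ :=
  1 / 20 + 6441 / 25000 * w + 59 / 100000 * w ^ 2 + 713 / 4000 * w ^ 3

/-- the gain of the column `s` -/
noncomputable def fs (w : ℝ) : ℝ :=
  44653 / 100000 * w + 13 / 3125 * w ^ 2 + 117 / 4000 * w ^ 3

/-- the total of the gains -/
noncomputable def gg : ℝ := 333 / 625

/-- the gain of the column `p` if its cell supports the cell of the column `r` by at least `c` -/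
noncomputable def bpr (w c : ℝ) : ℝ :=
  109 / 12500 + 28923 / 100000 * w + 451 / 12500 * w ^ 2 - 223 / 20000 * w ^ 3 - 113 / 25000 * c -
    117 / 50000 * c ^ 2 - 10013 / 100000 * w * c + 361 / 100000 * w ^ 2 * c - 18859 / 100000 * w
    * c ^ 2

/-- the gain of the column `p` if its cell supports the cell of the column `s` by at least `c` -/
noncomputable def bps (w c : ℝ) : ℝ :=
  47 / 20000 + 19509 / 100000 * w + 10089 / 100000 * w ^ 2 + 307 / 100000 * w ^ 3 - 1 / 2000 * c +
    437 / 50000 * w * c - 2193 / 20000 * w ^ 2 * c - 1219 / 6250 * w * c ^ 2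

/-- the gain of the column `r` if its cell supports the cell of the column `p` by at least `c` -/
noncomputable def brp (w c : ℝ) : ℝ :=
  6679 / 100000 + 16001 / 100000 * w + 15399 / 50000 * w ^ 2 - 417 / 50000 * w ^ 3 - 827 / 25000 *
    c + 1629 / 100000 * c ^ 2 + 4473 / 20000 * w * c - 38349 / 100000 * w ^ 2 * c - 6107 / 50000
    * w * c ^ 2

/-- the gain of the column `r` if its cell supports the cell of the column `s` by at least `c` -/
noncomputable def brs (w c : ℝ) : ℝ :=
  5251 / 50000 + 11873 / 50000 * w + 7529 / 50000 * w ^ 2 - 189 / 10000 * w ^ 3 - 51 / 100000 * c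
    - 18123 / 100000 * c ^ 2 - 4251 / 50000 * w * c - 19003 / 100000 * w ^ 2 * c - 327 / 20000 *
    w * c ^ 2

/-- the gain of the column `s` if its cell supports the cell of the column `p` by at least `c` -/
noncomputable def bsp (w c : ℝ) : ℝ :=
  343 / 6250 + 25533 / 100000 * w + 916 / 3125 * w ^ 2 - 11231 / 100000 * w ^ 3 - 1157 / 100000 *
    c - 349 / 20000 * c ^ 2 + 6457 / 100000 * w * c - 369 / 4000 * w ^ 2 * c - 17877 / 100000 *
    w * c ^ 2

/-- the gain of the column `s` if its cell supports the cell of the column `r` by at least `c` -/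
noncomputable def bsr (w c : ℝ) : ℝ :=
  2067 / 50000 + 37113 / 100000 * w + 4983 / 100000 * w ^ 2 - 1 / 2000 * c - 1949 / 50000 * c ^ 2
    - 11521 / 100000 * w * c - 4983 / 100000 * w ^ 2 * c - 12771 / 50000 * w * c ^ 2

/-- the loss in the column `p` with the caps `a, b` on the rows `r, s` of heights `x, y` -/
noncomputable def qp (a b x y : ℝ) : ℝ :=
  39269 / 100000 - 6713 / 10000 * a - 21 / 32 * b + 26081 / 100000 * a ^ 2 + 18209 / 20000 * a * b
    + 24087 / 100000 * b ^ 2 + 2019 / 100000 * a ^ 3 - 26129 / 100000 * a ^ 2 * b - 1433 / 6250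
    * a * b ^ 2 + 1209 / 50000 * b ^ 3 - 243 / 6250 * x + 22971 / 100000 * x * a + 247 / 10000 *
    x * b + 147 / 100000 * x * a ^ 2 - 11413 / 50000 * x * a * b + 177 / 12500 * x * b ^ 2 - 257
    / 100000 * y + 1497 / 50000 * y * a + 6413 / 100000 * y * b - 143 / 5000 * y * a ^ 2 - 1377
    / 100000 * y * a * b + 2777 / 50000 * y * b ^ 2

/-- the loss in the column `r` with the caps `a, b` on the rows `p, s` of heights `x, y` -/
noncomputable def qr (a b x y : ℝ) : ℝ :=
  -1471 / 25000 - 2091 / 10000 * a - 1868 / 3125 * b + 11173 / 50000 * a ^ 2 + 16477 / 25000 * a *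
    b + 35999 / 100000 * b ^ 2 + 1463 / 100000 * a ^ 3 - 3511 / 25000 * a ^ 2 * b - 7089 / 25000
    * a * b ^ 2 - 1239 / 100000 * b ^ 3 + 21613 / 100000 * x + 2239 / 50000 * x * a + 4093 /
    10000 * x * b - 2849 / 50000 * x * a ^ 2 - 3991 / 25000 * x * a * b - 39819 / 100000 * x * b
    ^ 2 + 557 / 100000 * y - 2407 / 12500 * y * a - 3569 / 25000 * y * b + 2313 / 25000 * y * a
    ^ 2 + 17 / 80 * y * a * b + 16421 / 100000 * y * b ^ 2

/-- the loss in the column `s` with the caps `a, b` on the rows `p, r` of heights `x, y` -/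
noncomputable def qs (a b x y : ℝ) : ℝ :=
  21299 / 100000 - 42159 / 100000 * a - 9913 / 20000 * b + 807 / 4000 * a ^ 2 + 4299 / 6250 * a *
    b + 21281 / 100000 * b ^ 2 + 461 / 25000 * a ^ 3 - 11219 / 50000 * a ^ 2 * b - 5283 / 25000
    * a * b ^ 2 + 4577 / 100000 * b ^ 3 - 173 / 50000 * x + 2767 / 25000 * x * a - 19227 /
    100000 * x * b + 681 / 50000 * x * a ^ 2 - 1241 / 12500 * x * a * b + 5327 / 25000 * x * b ^
    2 + 293 / 20000 * y - 823 / 12500 * y * a - 633 / 12500 * y * b + 1653 / 50000 * y * a ^ 2 +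
    8947 / 100000 * y * a * b + 2849 / 50000 * y * b ^ 2

end Pool.Agent.Helper83.OL
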