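import Pool.Agent.Helper83.OL.Ss1
import Pool.Agent.Helper83.OL.Ss2
import Pool.Agent.Helper83.OL.Ss3
import Pool.Agent.Helper83.OL.Ss4

/-!
# The states of the column `s` of `OL1Br`: the lists
-/

set_option autoImplicit false
set_option maxRecDepth 100000
set_option linter.all false

namespace Pool.Agent.Helper83.OL.St

open Pool.Agent.Helper83.Cert Pool.Agent.Helper83.TS Pool.Agent.Helper36.CK Pool.Agent.Helper19.TS.Br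
open Pool.Agent.Helper83.OL
open Pool.Agent.Helper70.OL (ng fo2)

theorem lt_s1 {x y A B : ℝ} (x0 : 0 ≤ x) (x1 : x ≤ 3 / 5) (y0 : 0 ≤ y) (y1 : y ≤ 3 / 5)
    (A0 : 0 ≤ A) (B0 : 0 ≤ B) (lo : 9 / 20 ≤ A + B) (hi : A + B ≤ 2) :
    LT (np x) (nr y - kpr x y) 0 x y (ws x y) A B (qs (1 - A) (1 - B) x y) where
  c1 := fun u v h1 h2 h3 h4 h5 => s1_c1 x0 x1 y0 y1 A B u v A0 B0 lo hi h1 h2 h3 h4 h5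
  c3 := fun hB u h1 h2 h3 => s1_c3 x0 x1 y0 y1 A B u A0 B0 lo hi hB h1 h2 h3
  f11a := fun s v T h1 h2 h3 h4 h5 h6 h7 h8 h9 h10 => s1_f11a x0 x1 y0 y1 A B s v T A0 B0 lo hi h1 h2 h3 h4 h5 h6 h7 h8 h9 h10
  f11b := fun s v T h1 h2 h3 h4 h5 h6 h7 h8 h9 h10 => s1_f11b x0 x1 y0 y1 A B s v T A0 B0 lo hi h1 h2 h3 h4 h5 h6 h7 h8 h9 h10
  f12a := fun s v T h1 h2 h3 h4 h5 h6 h7 h8 h9 h10 => s1_f12a x0 x1 y0 y1 A B s v T A0 B0 lo hi h1 h2 h3 h4 h5 h6 h7 h8 h9 h10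
  f12b := fun s v T h1 h2 h3 h4 h5 h6 h7 h8 h9 h10 => s1_f12b x0 x1 y0 y1 A B s v T A0 B0 lo hi h1 h2 h3 h4 h5 h6 h7 h8 h9 h10
  f21a := fun s v T h1 h2 h3 h4 h5 h6 h7 h8 h9 h10 h11 => s1_f21a x0 x1 y0 y1 A B s v T A0 B0 lo hi h1 h2 h3 h4 h5 h6 h7 h8 h9 h10 h11
  f21b := fun s v T h1 h2 h3 h4 h5 h6 h7 h8 h9 h10 h11 => s1_f21b x0 x1 y0 y1 A B s v T A0 B0 lo hi h1 h2 h3 h4 h5 h6 h7 h8 h9 h10 h11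
  f22a := fun s v T h1 h2 h3 h4 h5 h6 h7 h8 h9 h10 h11 => s1_f22a x0 x1 y0 y1 A B s v T A0 B0 lo hi h1 h2 h3 h4 h5 h6 h7 h8 h9 h10 h11
  f22b := fun s v T h1 h2 h3 h4 h5 h6 h7 h8 h9 h10 h11 => s1_f22b x0 x1 y0 y1 A B s v T A0 B0 lo hi h1 h2 h3 h4 h5 h6 h7 h8 h9 h10 h11
  f31a := fun hB s T h1 h2 h3 h4 h5 h6 h7 => s1_f31a x0 x1 y0 y1 A B s T A0 B0 lo hi h1 h2 h3 h4 hB h5 h6 h7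
  f31b := fun hB s T h1 h2 h3 h4 h5 h6 h7 => s1_f31b x0 x1 y0 y1 A B s T A0 B0 lo hi h1 h2 h3 h4 hB h5 h6 h7
  f32a := fun hB s T h1 h2 h3 h4 h5 h6 h7 => s1_f32a x0 x1 y0 y1 A B s T A0 B0 lo hi h1 h2 h3 h4 hB h5 h6 h7
  f32b := fun hB s T h1 h2 h3 h4 h5 h6 h7 => s1_f32b x0 x1 y0 y1 A B s T A0 B0 lo hi h1 h2 h3 h4 hB h5 h6 h7
  f41a := fun hB s T h1 h2 h3 h4 h5 h6 h7 => s1_f41a x0 x1 y0 y1 A B s T A0 B0 lo hi h1 h2 h3 h4 hB h5 h6 h7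
  f41b := fun hB s T h1 h2 h3 h4 h5 h6 h7 => s1_f41b x0 x1 y0 y1 A B s T A0 B0 lo hi h1 h2 h3 h4 hB h5 h6 h7
  f42a := fun hB s T h1 h2 h3 h4 h5 h6 h7 => s1_f42a x0 x1 y0 y1 A B s T A0 B0 lo hi h1 h2 h3 h4 hB h5 h6 h7
  f42b := fun hB s T h1 h2 h3 h4 h5 h6 h7 => s1_f42b x0 x1 y0 y1 A B s T A0 B0 lo hi h1 h2 h3 h4 hB h5 h6 h7
  f5 := fun hA v T h1 h2 h3 h4 h5 h6 => s1_f5 x0 x1 y0 y1 A B v T A0 B0 lo hi h1 h2 h3 hA h4 h5 h6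
  y11 := fun s r T h1 h2 h3 h4 h5 h6 h7 h8 h9 => s1_y11 x0 x1 y0 y1 A B s r T A0 B0 lo hi h1 h2 h3 h4 h5 h6 h7 h8 h9
  y12 := fun s r T h1 h2 h3 h4 h5 h6 h7 h8 h9 => s1_y12 x0 x1 y0 y1 A B s r T A0 B0 lo hi h1 h2 h3 h4 h5 h6 h7 h8 h9
  y21 := fun s r T h1 h2 h3 h4 h5 h6 h7 h8 h9 => s1_y21 x0 x1 y0 y1 A B s r T A0 B0 lo hi h1 h2 h3 h4 h5 h6 h7 h8 h9
  y22 := fun s r T h1 h2 h3 h4 h5 h6 h7 h8 h9 => s1_y22 x0 x1 y0 y1 A B s r T A0 B0 lo hi h1 h2 h3 h4 h5 h6 h7 h8 h9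
  y3 := fun hB s T h1 h2 h3 h4 h5 h6 => s1_y3 x0 x1 y0 y1 A B s T A0 B0 lo hi h1 h2 h3 hB h4 h5 h6
  y4 := fun hB s T h1 h2 h3 h4 h5 h6 => s1_y4 x0 x1 y0 y1 A B s T A0 B0 lo hi h1 h2 h3 hB h4 h5 h6
  r1 := fun d o h1 h2 h3 h4 h5 h6 h7 h8 => s1_r1 x0 x1 y0 y1 A B d o A0 hi h1 h2 h3 h4 h5 h6 h7 h8
  r2 := fun d o h1 h2 h3 h4 h5 h6 h7 h8 => s1_r2 x0 x1 y0 y1 A B d o A0 hi h1 h2 h3 h4 h5 h6 h7 h8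
  s1 := fun d o r T h1 h2 h3 h4 h5 h6 h7 h8 h9 h10 h11 h12 h13 => s1_s1 x0 x1 y0 y1 A B d o r T A0 hi h1 h2 h3 h4 h5 h6 h7 h8 h9 h10 h11 h12 h13
  s2 := fun d o r T h1 h2 h3 h4 h5 h6 h7 h8 h9 h10 h11 h12 h13 => s1_s2 x0 x1 y0 y1 A B d o r T A0 hi h1 h2 h3 h4 h5 h6 h7 h8 h9 h10 h11 h12 h13
  t1 := fun d o T h1 h2 h3 h4 h5 h6 h7 h8 h9 h10 h11 h12 => s1_t1 x0 x1 y0 y1 A B d o T A0 hi h1 h2 h3 h4 h5 h6 h7 h8 h9 h10 h11 h12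
  t2 := fun d o T h1 h2 h3 h4 h5 h6 h7 h8 h9 h10 h11 h12 => s1_t2 x0 x1 y0 y1 A B d o T A0 hi h1 h2 h3 h4 h5 h6 h7 h8 h9 h10 h11 h12

theorem lt_s2 {x y A B : ℝ} (x0 : 0 ≤ x) (x1 : x ≤ 3 / 5) (y0 : 0 ≤ y) (y1 : y ≤ 3 / 5)
    (A0 : 0 ≤ A) (B0 : 0 ≤ B) (lo : 9 / 20 ≤ A + B) (hi : A + B ≤ 2) :
    LT (nr y - kpr x y) (np x) 0 y x (ws x y) A B (qs (1 - B) (1 - A) x y) where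
  c1 := fun u v h1 h2 h3 h4 h5 => s2_c1 x0 x1 y0 y1 A B u v A0 B0 lo hi h1 h2 h3 h4 h5
  c3 := fun hB u h1 h2 h3 => s2_c3 x0 x1 y0 y1 A B u A0 B0 lo hi hB h1 h2 h3
  f11a := fun s v T h1 h2 h3 h4 h5 h6 h7 h8 h9 h10 => s2_f11a x0 x1 y0 y1 A B s v T A0 B0 lo hi h1 h2 h3 h4 h5 h6 h7 h8 h9 h10
  f11b := fun s v T h1 h2 h3 h4 h5 h6 h7 h8 h9 h10 => s2_f11b x0 x1 y0 y1 A B s v T A0 B0 lo hi h1 h2 h3 h4 h5 h6 h7 h8 h9 h10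
  f12a := fun s v T h1 h2 h3 h4 h5 h6 h7 h8 h9 h10 => s2_f12a x0 x1 y0 y1 A B s v T A0 B0 lo hi h1 h2 h3 h4 h5 h6 h7 h8 h9 h10
  f12b := fun s v T h1 h2 h3 h4 h5 h6 h7 h8 h9 h10 => s2_f12b x0 x1 y0 y1 A B s v T A0 B0 lo hi h1 h2 h3 h4 h5 h6 h7 h8 h9 h10
  f21a := fun s v T h1 h2 h3 h4 h5 h6 h7 h8 h9 h10 h11 => s2_f21a x0 x1 y0 y1 A B s v T A0 B0 lo hi h1 h2 h3 h4 h5 h6 h7 h8 h9 h10 h11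
  f21b := fun s v T h1 h2 h3 h4 h5 h6 h7 h8 h9 h10 h11 => s2_f21b x0 x1 y0 y1 A B s v T A0 B0 lo hi h1 h2 h3 h4 h5 h6 h7 h8 h9 h10 h11
  f22a := fun s v T h1 h2 h3 h4 h5 h6 h7 h8 h9 h10 h11 => s2_f22a x0 x1 y0 y1 A B s v T A0 B0 lo hi h1 h2 h3 h4 h5 h6 h7 h8 h9 h10 h11
  f22b := fun s v T h1 h2 h3 h4 h5 h6 h7 h8 h9 h10 h11 => s2_f22b x0 x1 y0 y1 A B s v T A0 B0 lo hi h1 h2 h3 h4 h5 h6 h7 h8 h9 h10 h11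
  f31a := fun hB s T h1 h2 h3 h4 h5 h6 h7 => s2_f31a x0 x1 y0 y1 A B s T A0 B0 lo hi h1 h2 h3 h4 hB h5 h6 h7
  f31b := fun hB s T h1 h2 h3 h4 h5 h6 h7 => s2_f31b x0 x1 y0 y1 A B s T A0 B0 lo hi h1 h2 h3 h4 hB h5 h6 h7
  f32a := fun hB s T h1 h2 h3 h4 h5 h6 h7 => s2_f32a x0 x1 y0 y1 A B s T A0 B0 lo hi h1 h2 h3 h4 hB h5 h6 h7
  f32b := fun hB s T h1 h2 h3 h4 h5 h6 h7 => s2_f32b x0 x1 y0 y1 A B s T A0 B0 lo hi h1 h2 h3 h4 hB h5 h6 h7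
  f41a := fun hB s T h1 h2 h3 h4 h5 h6 h7 => s2_f41a x0 x1 y0 y1 A B s T A0 B0 lo hi h1 h2 h3 h4 hB h5 h6 h7
  f41b := fun hB s T h1 h2 h3 h4 h5 h6 h7 => s2_f41b x0 x1 y0 y1 A B s T A0 B0 lo hi h1 h2 h3 h4 hB h5 h6 h7
  f42a := fun hB s T h1 h2 h3 h4 h5 h6 h7 => s2_f42a x0 x1 y0 y1 A B s T A0 B0 lo hi h1 h2 h3 h4 hB h5 h6 h7
  f42b := fun hB s T h1 h2 h3 h4 h5 h6 h7 => s2_f42b x0 x1 y0 y1 A B s T A0 B0 lo hi h1 h2 h3 h4 hB h5 h6 h7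
  f5 := fun hA v T h1 h2 h3 h4 h5 h6 => s2_f5 x0 x1 y0 y1 A B v T A0 B0 lo hi h1 h2 h3 hA h4 h5 h6
  y11 := fun s r T h1 h2 h3 h4 h5 h6 h7 h8 h9 => s2_y11 x0 x1 y0 y1 A B s r T A0 B0 lo hi h1 h2 h3 h4 h5 h6 h7 h8 h9
  y12 := fun s r T h1 h2 h3 h4 h5 h6 h7 h8 h9 => s2_y12 x0 x1 y0 y1 A B s r T A0 B0 lo hi h1 h2 h3 h4 h5 h6 h7 h8 h9
  y21 := fun s r T h1 h2 h3 h4 h5 h6 h7 h8 h9 => s2_y21 x0 x1 y0 y1 A B s r T A0 B0 lo hi h1 h2 h3 h4 h5 h6 h7 h8 h9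
  y22 := fun s r T h1 h2 h3 h4 h5 h6 h7 h8 h9 => s2_y22 x0 x1 y0 y1 A B s r T A0 B0 lo hi h1 h2 h3 h4 h5 h6 h7 h8 h9
  y3 := fun hB s T h1 h2 h3 h4 h5 h6 => s2_y3 x0 x1 y0 y1 A B s T A0 B0 lo hi h1 h2 h3 hB h4 h5 h6
  y4 := fun hB s T h1 h2 h3 h4 h5 h6 => s2_y4 x0 x1 y0 y1 A B s T A0 B0 lo hi h1 h2 h3 hB h4 h5 h6
  r1 := fun d o h1 h2 h3 h4 h5 h6 h7 h8 => s2_r1 x0 x1 y0 y1 A B d o A0 hi h1 h2 h3 h4 h5 h6 h7 h8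
  r2 := fun d o h1 h2 h3 h4 h5 h6 h7 h8 => s2_r2 x0 x1 y0 y1 A B d o A0 hi h1 h2 h3 h4 h5 h6 h7 h8
  s1 := fun d o r T h1 h2 h3 h4 h5 h6 h7 h8 h9 h10 h11 h12 h13 => s2_s1 x0 x1 y0 y1 A B d o r T A0 hi h1 h2 h3 h4 h5 h6 h7 h8 h9 h10 h11 h12 h13
  s2 := fun d o r T h1 h2 h3 h4 h5 h6 h7 h8 h9 h10 h11 h12 h13 => s2_s2 x0 x1 y0 y1 A B d o r T A0 hi h1 h2 h3 h4 h5 h6 h7 h8 h9 h10 h11 h12 h13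
  t1 := fun d o T h1 h2 h3 h4 h5 h6 h7 h8 h9 h10 h11 h12 => s2_t1 x0 x1 y0 y1 A B d o T A0 hi h1 h2 h3 h4 h5 h6 h7 h8 h9 h10 h11 h12
  t2 := fun d o T h1 h2 h3 h4 h5 h6 h7 h8 h9 h10 h11 h12 => s2_t2 x0 x1 y0 y1 A B d o T A0 hi h1 h2 h3 h4 h5 h6 h7 h8 h9 h10 h11 h12

end Pool.Agent.Helper83.OL.St
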