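import Pool.Agent.Helper83.OL.ModeG
import Pool.Agent.Helper83.OL.SpL
import Pool.Agent.Helper83.OL.SsL
import Pool.Agent.Helper83.OL.Mp
import Pool.Agent.Helper83.OL.Mr
import Pool.Agent.Helper83.OL.Ms
import Pool.Agent.Helper19.TS.BrR

/-!
# The three `ModesC` of `OL1Br`
-/

set_option autoImplicit false
set_option linter.unusedVariables false

namespace Pool.Agent.Helper83.OL

open Pool.Agent.Helper84.TS Pool.Agent.Helper36.TS Pool.Agent.Helper74.TS Pool.Agent.Helper78.TS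
open Pool.Agent.Helper5.TS Pool.Agent.Helper83.OL.St
open Pool.Agent.Helper70.OL (Sg)

section

variable {x y w A B t : ℝ}

/-- a cell of height at least `11/20` -/
theorem vl_fr (c : Cl w A B) (h : A + B ≤ w + 9 / 20) : vl w A B ≤ w * (81 / 1600 + 9 / 40 * w) := by
  have h1 := Pool.Agent.Helper8.TS.vl_sum c.w0.le c.A0 c.B0 c.lo
  have h2 : (A + B) ^ 2 ≤ (w + 9 / 20) ^ 2 :=
    pow_le_pow_left₀ (add_nonneg c.A0 c.B0) h 2
  have h3 := mul_le_mul_of_nonneg_left h2 c.w0.le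
  linarith

/-- any cell -/
theorem vl_any (c : Cl w A B) : vl w A B ≤ w * (1 / 4 + 1 / 2 * w) := by
  have h1 := Pool.Agent.Helper8.TS.vl_sum c.w0.le c.A0 c.B0 c.lo
  have h2 : (A + B) ^ 2 ≤ (1 + w) ^ 2 := pow_le_pow_left₀ (add_nonneg c.A0 c.B0) c.hi 2
  have h3 := mul_le_mul_of_nonneg_left h2 c.w0.le
  linarith

theorem fr_p (w0 : 0 ≤ w) (w1 : w ≤ 1) : w * (81 / 1600 + 9 / 40 * w) ≤ fp w := by
  have h1 := mul_nonneg w0 (sub_nonneg.2 w1)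
  have h2 := mul_nonneg (mul_nonneg w0 w0) (sub_nonneg.2 w1)
  have h3 := pow_nonneg w0 3
  unfold fp
  nlinarith

theorem fr_s (w0 : 0 ≤ w) (w1 : w ≤ 1) : w * (81 / 1600 + 9 / 40 * w) ≤ fs w := by
  have h1 := mul_nonneg w0 (sub_nonneg.2 w1)
  have h3 := pow_nonneg w0 3
  unfold fs
  nlinarith

theorem sm_s (w0 : 0 ≤ w) (w1 : w ≤ 3 / 10) : w * (1 / 4 + 1 / 2 * w) ≤ fs w := by
  have h1 := mul_nonneg w0 (sub_nonneg.2 w1)
  have h3 := pow_nonneg w0 3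
  unfold fs
  nlinarith

/-- the states of the column `p` -/
theorem st_p (x0 : 0 ≤ x) (x1 : x ≤ 3 / 5) (y0 : 0 ≤ y) (y1 : y ≤ 3 / 5) (c : Cl w A B)
    (lo : w + 9 / 20 < A + B) :
    St2 (nr x) (ns y) (krs x y) x y (wp x y) (fun _ _ => True) True True w A B
      (vl w A B - qp (1 - A) (1 - B) x y) := by
  have k0 : 0 ≤ krs x y := by
    unfold krs
    nlinarith [mul_nonneg x0 y0, mul_nonneg (sub_nonneg.2 x1) (sub_nonneg.2 y1)]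
  have h1 : 9 / 20 ≤ A + B := by linarith [c.w0]
  have h2 : A + B ≤ 2 := by linarith [c.w1, c.hi]
  have sx : Side (nr x - krs x y) x := side_pr x0 x1 y0 y1
  have sy : Side (ns y - krs x y) y := side_ps x0 x1 y0 y1
  exact (lt_p1 x0 x1 y0 y1 c.A0 c.B0 h1 h2).st2
    (lt_p2 x0 x1 y0 y1 c.B0 c.A0 (by linarith) (by linarith)) ⟨k0, sx.u4, sy.u4, x0, x1, y0, y1⟩
    sx sy c.w1 c.A0 c.B0 lo c.hi

/-- the states of the column `s` -/
theorem st_s (x0 : 0 ≤ x) (x1 : x ≤ 3 / 5) (y0 : 0 ≤ y) (y1 : y ≤ 3 / 5) (c : Cl w A B)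
    (lo : w + 9 / 20 < A + B) :
    St2 (np x) (nr y - kpr x y) 0 x y (ws x y) (fun _ _ => True) True True w A B
      (vl w A B - qs (1 - A) (1 - B) x y) := by
  have h1 : 9 / 20 ≤ A + B := by linarith [c.w0]
  have h2 : A + B ≤ 2 := by linarith [c.w1, c.hi]
  have sx : Side (np x - 0) x := side_sp x0 x1
  have sy : Side (nr y - kpr x y - 0) y := side_sr x0 x1 y0 y1
  exact (lt_s1 x0 x1 y0 y1 c.A0 c.B0 h1 h2).st2
    (lt_s2 x0 x1 y0 y1 c.B0 c.A0 (by linarith) (by linarith))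
    ⟨le_refl 0, sx.u4, sy.u4, x0, x1, y0, y1⟩ sx sy c.w1 c.A0 c.B0 lo c.hi

theorem p_one (x0 : 0 ≤ x) (x1 : x ≤ 3 / 5) (y0 : 0 ≤ y) (y1 : y ≤ 3 / 5) (c : Cl w A B) :
    Bd (nr x) (ns y) (krs x y) x y (wp x y) (wp x y) (fun _ _ => True) flA w A B (fp w + 0 * (A + B - w)) := by
  refine bd_loss (st_p x0 x1 y0 y1 c) (fun h => ?_) fun h => ?_
  · exact (vl_fr c h).trans (fr_p c.w0.le c.w1)
  · have := vl_cases (fun a b => mp_one_1h x0 x1 y0 y1 w A B c.w0.le c.w1 c.A0 c.B0 h c.hi a b)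
        (fun a b => mp_one_2h x0 x1 y0 y1 w A B c.w0.le c.w1 c.A0 c.B0 h c.hi a b)
        (fun a b => mp_one_3h x0 x1 y0 y1 w A B c.w0.le c.w1 c.A0 c.B0 h c.hi a b)
        (fun a b => mp_one_4h x0 x1 y0 y1 w A B c.w0.le c.w1 c.A0 c.B0 h c.hi a b)
    linarith

theorem p_twoy (x0 : 0 ≤ x) (x1 : x ≤ 3 / 5) (y0 : 0 ≤ y) (y1 : y ≤ 3 / 5) (c : Cl w A B) (A1 : A ≤ 1) :
    Bd (nr x) (ns y) (krs x y) x y (wp x y) (wp x y) (fun _ _ => True) flA w A B (gg - fs (1 - A) + 0 * (A + B - w)) := by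
  refine bd_loss (st_p x0 x1 y0 y1 c) (fun h => ?_) fun h => ?_
  · have := vl_cases (fun a b => mp_twoy_1l w A B c.w0.le c.w1 c.A0 c.B0 c.lo h a b A1)
        (fun a b => mp_twoy_2l w A B c.w0.le c.w1 c.A0 c.B0 c.lo h a b A1)
        (fun a b => mp_twoy_3l w A B c.w0.le c.w1 c.A0 c.B0 c.lo h a b A1)
        (fun a b => mp_twoy_4l w A B c.w0.le c.w1 c.A0 c.B0 c.lo h a b A1)
    unfold gg
    linarith
  · have := vl_cases (fun a b => mp_twoy_1h x0 x1 y0 y1 w A B c.w0.le c.w1 c.A0 c.B0 h c.hi a b A1)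
        (fun a b => mp_twoy_2h x0 x1 y0 y1 w A B c.w0.le c.w1 c.A0 c.B0 h c.hi a b A1)
        (fun a b => mp_twoy_3h x0 x1 y0 y1 w A B c.w0.le c.w1 c.A0 c.B0 h c.hi a b A1)
        (fun a b => mp_twoy_4h x0 x1 y0 y1 w A B c.w0.le c.w1 c.A0 c.B0 h c.hi a b A1)
    unfold gg
    linarith

theorem p_twox (x0 : 0 ≤ x) (x1 : x ≤ 3 / 5) (y0 : 0 ≤ y) (y1 : y ≤ 3 / 5) (c : Cl w A B) (B1 : B ≤ 1) :
    Bd (nr x) (ns y) (krs x y) x y (wp x y) (wp x y) (fun _ _ => True) flA w A B (gg - fr (1 - B) + 0 * (A + B - w)) := by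
  refine bd_loss (st_p x0 x1 y0 y1 c) (fun h => ?_) fun h => ?_
  · have := vl_cases (fun a b => mp_twox_1l w A B c.w0.le c.w1 c.A0 c.B0 c.lo h a b B1)
        (fun a b => mp_twox_2l w A B c.w0.le c.w1 c.A0 c.B0 c.lo h a b B1)
        (fun a b => mp_twox_3l w A B c.w0.le c.w1 c.A0 c.B0 c.lo h a b B1)
        (fun a b => mp_twox_4l w A B c.w0.le c.w1 c.A0 c.B0 c.lo h a b B1)
    unfold gg
    linarith
  · have := vl_cases (fun a b => mp_twox_1h x0 x1 y0 y1 w A B c.w0.le c.w1 c.A0 c.B0 h c.hi a b B1)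
        (fun a b => mp_twox_2h x0 x1 y0 y1 w A B c.w0.le c.w1 c.A0 c.B0 h c.hi a b B1)
        (fun a b => mp_twox_3h x0 x1 y0 y1 w A B c.w0.le c.w1 c.A0 c.B0 h c.hi a b B1)
        (fun a b => mp_twox_4h x0 x1 y0 y1 w A B c.w0.le c.w1 c.A0 c.B0 h c.hi a b B1)
    unfold gg
    linarith

theorem p_capy (x0 : 0 ≤ x) (x1 : x ≤ 3 / 5) (y0 : 0 ≤ y) (y1 : y ≤ 3 / 5) (c : Cl w A B) (A1 : A ≤ 1) :
    Bd (nr x) (ns y) (krs x y) x y (wp x y) (wp x y) (fun _ _ => True) flA w A B (bps w (1 - A) + 0 * (A + B - w)) := by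
  refine bd_loss (st_p x0 x1 y0 y1 c) (fun h => ?_) fun h => ?_
  · have := vl_cases (fun a b => mp_capy_1l w A B c.w0.le c.w1 c.A0 c.B0 c.lo h a b A1)
        (fun a b => mp_capy_2l w A B c.w0.le c.w1 c.A0 c.B0 c.lo h a b A1)
        (fun a b => mp_capy_3l w A B c.w0.le c.w1 c.A0 c.B0 c.lo h a b A1)
        (fun a b => mp_capy_4l w A B c.w0.le c.w1 c.A0 c.B0 c.lo h a b A1)
    linarith
  · have := vl_cases (fun a b => mp_capy_1h x0 x1 y0 y1 w A B c.w0.le c.w1 c.A0 c.B0 h c.hi a b A1)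
        (fun a b => mp_capy_2h x0 x1 y0 y1 w A B c.w0.le c.w1 c.A0 c.B0 h c.hi a b A1)
        (fun a b => mp_capy_3h x0 x1 y0 y1 w A B c.w0.le c.w1 c.A0 c.B0 h c.hi a b A1)
        (fun a b => mp_capy_4h x0 x1 y0 y1 w A B c.w0.le c.w1 c.A0 c.B0 h c.hi a b A1)
    linarith

theorem p_capx (x0 : 0 ≤ x) (x1 : x ≤ 3 / 5) (y0 : 0 ≤ y) (y1 : y ≤ 3 / 5) (c : Cl w A B) (B1 : B ≤ 1) :
    Bd (nr x) (ns y) (krs x y) x y (wp x y) (wp x y) (fun _ _ => True) flA w A B (bpr w (1 - B) + 0 * (A + B - w)) := by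
  refine bd_loss (st_p x0 x1 y0 y1 c) (fun h => ?_) fun h => ?_
  · have := vl_cases (fun a b => mp_capx_1l w A B c.w0.le c.w1 c.A0 c.B0 c.lo h a b B1)
        (fun a b => mp_capx_2l w A B c.w0.le c.w1 c.A0 c.B0 c.lo h a b B1)
        (fun a b => mp_capx_3l w A B c.w0.le c.w1 c.A0 c.B0 c.lo h a b B1)
        (fun a b => mp_capx_4l w A B c.w0.le c.w1 c.A0 c.B0 c.lo h a b B1)
    linarith
  · have := vl_cases (fun a b => mp_capx_1h x0 x1 y0 y1 w A B c.w0.le c.w1 c.A0 c.B0 h c.hi a b B1)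
        (fun a b => mp_capx_2h x0 x1 y0 y1 w A B c.w0.le c.w1 c.A0 c.B0 h c.hi a b B1)
        (fun a b => mp_capx_3h x0 x1 y0 y1 w A B c.w0.le c.w1 c.A0 c.B0 h c.hi a b B1)
        (fun a b => mp_capx_4h x0 x1 y0 y1 w A B c.w0.le c.w1 c.A0 c.B0 h c.hi a b B1)
    linarith

theorem p_chy (x0 : 0 ≤ x) (x1 : x ≤ 3 / 5) (y0 : 0 ≤ y) (y1 : y ≤ 3 / 5) (c : Cl w A B) (A1 : A ≤ 1) (B1 : B ≤ 1)
    (t0 : 0 ≤ t) (t1 : t ≤ 1 - B) :
    Bd (nr x) (ns y) (krs x y) x y (wp x y) (wp x y) (fun _ _ => True) flA w A B (gg + 0 - bsr (1 - A) t - fr t + 0 * (A + B - w)) := by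
  refine bd_loss (st_p x0 x1 y0 y1 c) (fun h => ?_) fun h => ?_
  · have := vl_cases (fun a b => mp_chy_1l w A B t c.w0.le c.w1 c.A0 c.B0 c.lo h a b A1 B1 t0 t1)
        (fun a b => mp_chy_2l w A B t c.w0.le c.w1 c.A0 c.B0 c.lo h a b A1 B1 t0 t1)
        (fun a b => mp_chy_3l w A B t c.w0.le c.w1 c.A0 c.B0 c.lo h a b A1 B1 t0 t1)
        (fun a b => mp_chy_4l w A B t c.w0.le c.w1 c.A0 c.B0 c.lo h a b A1 B1 t0 t1)
    unfold gg
    linarith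
  · have := vl_cases (fun a b => mp_chy_1h x0 x1 y0 y1 w A B t c.w0.le c.w1 c.A0 c.B0 h c.hi a b A1 B1 t0 t1)
        (fun a b => mp_chy_2h x0 x1 y0 y1 w A B t c.w0.le c.w1 c.A0 c.B0 h c.hi a b A1 B1 t0 t1)
        (fun a b => mp_chy_3h x0 x1 y0 y1 w A B t c.w0.le c.w1 c.A0 c.B0 h c.hi a b A1 B1 t0 t1)
        (fun a b => mp_chy_4h x0 x1 y0 y1 w A B t c.w0.le c.w1 c.A0 c.B0 h c.hi a b A1 B1 t0 t1)
    unfold gg
    linarith

theorem p_chx (x0 : 0 ≤ x) (x1 : x ≤ 3 / 5) (y0 : 0 ≤ y) (y1 : y ≤ 3 / 5) (c : Cl w A B) (A1 : A ≤ 1) (B1 : B ≤ 1)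
    (t0 : 0 ≤ t) (t1 : t ≤ 1 - A) :
    Bd (nr x) (ns y) (krs x y) x y (wp x y) (wp x y) (fun _ _ => True) flA w A B (gg + 0 - brs (1 - B) t - fs t + 0 * (A + B - w)) := by
  refine bd_loss (st_p x0 x1 y0 y1 c) (fun h => ?_) fun h => ?_
  · have := vl_cases (fun a b => mp_chx_1l w A B t c.w0.le c.w1 c.A0 c.B0 c.lo h a b A1 B1 t0 t1)
        (fun a b => mp_chx_2l w A B t c.w0.le c.w1 c.A0 c.B0 c.lo h a b A1 B1 t0 t1)
        (fun a b => mp_chx_3l w A B t c.w0.le c.w1 c.A0 c.B0 c.lo h a b A1 B1 t0 t1)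
        (fun a b => mp_chx_4l w A B t c.w0.le c.w1 c.A0 c.B0 c.lo h a b A1 B1 t0 t1)
    unfold gg
    linarith
  · have := vl_cases (fun a b => mp_chx_1h x0 x1 y0 y1 w A B t c.w0.le c.w1 c.A0 c.B0 h c.hi a b A1 B1 t0 t1)
        (fun a b => mp_chx_2h x0 x1 y0 y1 w A B t c.w0.le c.w1 c.A0 c.B0 h c.hi a b A1 B1 t0 t1)
        (fun a b => mp_chx_3h x0 x1 y0 y1 w A B t c.w0.le c.w1 c.A0 c.B0 h c.hi a b A1 B1 t0 t1)
        (fun a b => mp_chx_4h x0 x1 y0 y1 w A B t c.w0.le c.w1 c.A0 c.B0 h c.hi a b A1 B1 t0 t1)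
    unfold gg
    linarith

theorem r_one (x0 : 0 ≤ x) (x1 : x ≤ 3 / 5) (y0 : 0 ≤ y) (y1 : y ≤ 3 / 5) (c : Cl w A B) :
    Bd (np x) (ns y) (kps x y) x y (wr x y) (wr x y) (fun u _ => 1 - A + x < u) flB w A B
      (fr w + sr x * (A + B - w)) := by
  refine bd_wit (Pool.Agent.Helper19.TS.Br.st_r x0 x1 y0 y1 c) fun h => ?_
  have := vl_cases (fun a b => mr_one_1h x0 x1 y0 y1 w A B c.w0.le c.w1 c.A0 c.B0 h c.hi a b)
        (fun a b => mr_one_2h x0 x1 y0 y1 w A B c.w0.le c.w1 c.A0 c.B0 h c.hi a b)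
        (fun a b => mr_one_3h x0 x1 y0 y1 w A B c.w0.le c.w1 c.A0 c.B0 h c.hi a b)
        (fun a b => mr_one_4h x0 x1 y0 y1 w A B c.w0.le c.w1 c.A0 c.B0 h c.hi a b)
  linarith

theorem r_twoy (x0 : 0 ≤ x) (x1 : x ≤ 3 / 5) (y0 : 0 ≤ y) (y1 : y ≤ 3 / 5) (c : Cl w A B) (A1 : A ≤ 1) :
    Bd (np x) (ns y) (kps x y) x y (wr x y) (wr x y) (fun u _ => 1 - A + x < u) flB w A B
      (gg - fs (1 - A) + sr x * (A + B - w)) := by
  refine bd_wit (Pool.Agent.Helper19.TS.Br.st_r x0 x1 y0 y1 c) fun h => ?_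
  have := vl_cases (fun a b => mr_twoy_1h x0 x1 y0 y1 w A B c.w0.le c.w1 c.A0 c.B0 h c.hi a b A1)
        (fun a b => mr_twoy_2h x0 x1 y0 y1 w A B c.w0.le c.w1 c.A0 c.B0 h c.hi a b A1)
        (fun a b => mr_twoy_3h x0 x1 y0 y1 w A B c.w0.le c.w1 c.A0 c.B0 h c.hi a b A1)
        (fun a b => mr_twoy_4h x0 x1 y0 y1 w A B c.w0.le c.w1 c.A0 c.B0 h c.hi a b A1)
  unfold gg
  linarith

theorem r_twox (x0 : 0 ≤ x) (x1 : x ≤ 3 / 5) (y0 : 0 ≤ y) (y1 : y ≤ 3 / 5) (c : Cl w A B) (B1 : B ≤ 1) :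
    Bd (np x) (ns y) (kps x y) x y (wr x y) (wr x y) (fun u _ => 1 - A + x < u) flB w A B
      (gg - fp (1 - B) + sr x * (A + B - w)) := by
  refine bd_wit (Pool.Agent.Helper19.TS.Br.st_r x0 x1 y0 y1 c) fun h => ?_
  have := vl_cases (fun a b => mr_twox_1h x0 x1 y0 y1 w A B c.w0.le c.w1 c.A0 c.B0 h c.hi a b B1)
        (fun a b => mr_twox_2h x0 x1 y0 y1 w A B c.w0.le c.w1 c.A0 c.B0 h c.hi a b B1)
        (fun a b => mr_twox_3h x0 x1 y0 y1 w A B c.w0.le c.w1 c.A0 c.B0 h c.hi a b B1)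
        (fun a b => mr_twox_4h x0 x1 y0 y1 w A B c.w0.le c.w1 c.A0 c.B0 h c.hi a b B1)
  unfold gg
  linarith

theorem r_capy (x0 : 0 ≤ x) (x1 : x ≤ 3 / 5) (y0 : 0 ≤ y) (y1 : y ≤ 3 / 5) (c : Cl w A B) (A1 : A ≤ 1) :
    Bd (np x) (ns y) (kps x y) x y (wr x y) (wr x y) (fun u _ => 1 - A + x < u) flB w A B
      (brs w (1 - A) + sr x * (A + B - w)) := by
  refine bd_wit (Pool.Agent.Helper19.TS.Br.st_r x0 x1 y0 y1 c) fun h => ?_
  have := vl_cases (fun a b => mr_capy_1h x0 x1 y0 y1 w A B c.w0.le c.w1 c.A0 c.B0 h c.hi a b A1)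
        (fun a b => mr_capy_2h x0 x1 y0 y1 w A B c.w0.le c.w1 c.A0 c.B0 h c.hi a b A1)
        (fun a b => mr_capy_3h x0 x1 y0 y1 w A B c.w0.le c.w1 c.A0 c.B0 h c.hi a b A1)
        (fun a b => mr_capy_4h x0 x1 y0 y1 w A B c.w0.le c.w1 c.A0 c.B0 h c.hi a b A1)
  linarith

theorem r_capx (x0 : 0 ≤ x) (x1 : x ≤ 3 / 5) (y0 : 0 ≤ y) (y1 : y ≤ 3 / 5) (c : Cl w A B) (B1 : B ≤ 1) :
    Bd (np x) (ns y) (kps x y) x y (wr x y) (wr x y) (fun u _ => 1 - A + x < u) flB w A B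
      (brp w (1 - B) + sr x * (A + B - w)) := by
  refine bd_wit (Pool.Agent.Helper19.TS.Br.st_r x0 x1 y0 y1 c) fun h => ?_
  have := vl_cases (fun a b => mr_capx_1h x0 x1 y0 y1 w A B c.w0.le c.w1 c.A0 c.B0 h c.hi a b B1)
        (fun a b => mr_capx_2h x0 x1 y0 y1 w A B c.w0.le c.w1 c.A0 c.B0 h c.hi a b B1)
        (fun a b => mr_capx_3h x0 x1 y0 y1 w A B c.w0.le c.w1 c.A0 c.B0 h c.hi a b B1)
        (fun a b => mr_capx_4h x0 x1 y0 y1 w A B c.w0.le c.w1 c.A0 c.B0 h c.hi a b B1)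
  linarith

theorem r_chy (x0 : 0 ≤ x) (x1 : x ≤ 3 / 5) (y0 : 0 ≤ y) (y1 : y ≤ 3 / 5) (c : Cl w A B) (A1 : A ≤ 1) (B1 : B ≤ 1)
    (t0 : 0 ≤ t) (t1 : t ≤ 1 - B) :
    Bd (np x) (ns y) (kps x y) x y (wr x y) (wr x y) (fun u _ => 1 - A + x < u) flB w A B
      (gg + 0 - bsp (1 - A) t - fp t + sr x * (A + B - w)) := by
  refine bd_wit (Pool.Agent.Helper19.TS.Br.st_r x0 x1 y0 y1 c) fun h => ?_
  have := vl_cases (fun a b => mr_chy_1h x0 x1 y0 y1 w A B t c.w0.le c.w1 c.A0 c.B0 h c.hi a b A1 B1 t0 t1)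
        (fun a b => mr_chy_2h x0 x1 y0 y1 w A B t c.w0.le c.w1 c.A0 c.B0 h c.hi a b A1 B1 t0 t1)
        (fun a b => mr_chy_3h x0 x1 y0 y1 w A B t c.w0.le c.w1 c.A0 c.B0 h c.hi a b A1 B1 t0 t1)
        (fun a b => mr_chy_4h x0 x1 y0 y1 w A B t c.w0.le c.w1 c.A0 c.B0 h c.hi a b A1 B1 t0 t1)
  unfold gg
  linarith

theorem r_chx (x0 : 0 ≤ x) (x1 : x ≤ 3 / 5) (y0 : 0 ≤ y) (y1 : y ≤ 3 / 5) (c : Cl w A B) (A1 : A ≤ 1) (B1 : B ≤ 1)
    (t0 : 0 ≤ t) (t1 : t ≤ 1 - A) :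
    Bd (np x) (ns y) (kps x y) x y (wr x y) (wr x y) (fun u _ => 1 - A + x < u) flB w A B
      (gg + 0 - bps (1 - B) t - fs t + sr x * (A + B - w)) := by
  refine bd_wit (Pool.Agent.Helper19.TS.Br.st_r x0 x1 y0 y1 c) fun h => ?_
  have := vl_cases (fun a b => mr_chx_1h x0 x1 y0 y1 w A B t c.w0.le c.w1 c.A0 c.B0 h c.hi a b A1 B1 t0 t1)
        (fun a b => mr_chx_2h x0 x1 y0 y1 w A B t c.w0.le c.w1 c.A0 c.B0 h c.hi a b A1 B1 t0 t1)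
        (fun a b => mr_chx_3h x0 x1 y0 y1 w A B t c.w0.le c.w1 c.A0 c.B0 h c.hi a b A1 B1 t0 t1)
        (fun a b => mr_chx_4h x0 x1 y0 y1 w A B t c.w0.le c.w1 c.A0 c.B0 h c.hi a b A1 B1 t0 t1)
  unfold gg
  linarith

theorem s_one (x0 : 0 ≤ x) (x1 : x ≤ 3 / 5) (y0 : 0 ≤ y) (y1 : y ≤ 3 / 5) (c : Cl w A B) :
    Bd (np x) (nr y - kpr x y) 0 x y (ws x y) (ws x y) (fun _ _ => True) flA w A B (fs w + 0 * (A + B - w)) := by
  rcases le_total w (3 / 10) with w3 | w3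
  · refine Bd.small trivial ?_
    have h1 := vl_any c
    have h2 := sm_s c.w0.le w3
    linarith
  refine bd_loss (st_s x0 x1 y0 y1 c) (fun h => ?_) fun h => ?_
  · exact (vl_fr c h).trans (fr_s c.w0.le c.w1)
  · have := vl_cases (fun a b => ms_one_1h x0 x1 y0 y1 w A B c.w0.le c.w1 c.A0 c.B0 h c.hi a b w3)
        (fun a b => ms_one_2h x0 x1 y0 y1 w A B c.w0.le c.w1 c.A0 c.B0 h c.hi a b w3)
        (fun a b => ms_one_3h x0 x1 y0 y1 w A B c.w0.le c.w1 c.A0 c.B0 h c.hi a b w3)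
        (fun a b => ms_one_4h x0 x1 y0 y1 w A B c.w0.le c.w1 c.A0 c.B0 h c.hi a b w3)
    linarith

theorem s_twoy (x0 : 0 ≤ x) (x1 : x ≤ 3 / 5) (y0 : 0 ≤ y) (y1 : y ≤ 3 / 5) (c : Cl w A B) (A1 : A ≤ 1) :
    Bd (np x) (nr y - kpr x y) 0 x y (ws x y) (ws x y) (fun _ _ => True) flA w A B (gg - fr (1 - A) + 0 * (A + B - w)) := by
  refine bd_loss (st_s x0 x1 y0 y1 c) (fun h => ?_) fun h => ?_
  · have := vl_cases (fun a b => ms_twoy_1l w A B c.w0.le c.w1 c.A0 c.B0 c.lo h a b A1)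
        (fun a b => ms_twoy_2l w A B c.w0.le c.w1 c.A0 c.B0 c.lo h a b A1)
        (fun a b => ms_twoy_3l w A B c.w0.le c.w1 c.A0 c.B0 c.lo h a b A1)
        (fun a b => ms_twoy_4l w A B c.w0.le c.w1 c.A0 c.B0 c.lo h a b A1)
    unfold gg
    linarith
  · have := vl_cases (fun a b => ms_twoy_1h x0 x1 y0 y1 w A B c.w0.le c.w1 c.A0 c.B0 h c.hi a b A1)
        (fun a b => ms_twoy_2h x0 x1 y0 y1 w A B c.w0.le c.w1 c.A0 c.B0 h c.hi a b A1)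
        (fun a b => ms_twoy_3h x0 x1 y0 y1 w A B c.w0.le c.w1 c.A0 c.B0 h c.hi a b A1)
        (fun a b => ms_twoy_4h x0 x1 y0 y1 w A B c.w0.le c.w1 c.A0 c.B0 h c.hi a b A1)
    unfold gg
    linarith

theorem s_twox (x0 : 0 ≤ x) (x1 : x ≤ 3 / 5) (y0 : 0 ≤ y) (y1 : y ≤ 3 / 5) (c : Cl w A B) (B1 : B ≤ 1) :
    Bd (np x) (nr y - kpr x y) 0 x y (ws x y) (ws x y) (fun _ _ => True) flA w A B (gg - fp (1 - B) + 0 * (A + B - w)) := by
  refine bd_loss (st_s x0 x1 y0 y1 c) (fun h => ?_) fun h => ?_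
  · have := vl_cases (fun a b => ms_twox_1l w A B c.w0.le c.w1 c.A0 c.B0 c.lo h a b B1)
        (fun a b => ms_twox_2l w A B c.w0.le c.w1 c.A0 c.B0 c.lo h a b B1)
        (fun a b => ms_twox_3l w A B c.w0.le c.w1 c.A0 c.B0 c.lo h a b B1)
        (fun a b => ms_twox_4l w A B c.w0.le c.w1 c.A0 c.B0 c.lo h a b B1)
    unfold gg
    linarith
  · have := vl_cases (fun a b => ms_twox_1h x0 x1 y0 y1 w A B c.w0.le c.w1 c.A0 c.B0 h c.hi a b B1)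
        (fun a b => ms_twox_2h x0 x1 y0 y1 w A B c.w0.le c.w1 c.A0 c.B0 h c.hi a b B1)
        (fun a b => ms_twox_3h x0 x1 y0 y1 w A B c.w0.le c.w1 c.A0 c.B0 h c.hi a b B1)
        (fun a b => ms_twox_4h x0 x1 y0 y1 w A B c.w0.le c.w1 c.A0 c.B0 h c.hi a b B1)
    unfold gg
    linarith

theorem s_capy (x0 : 0 ≤ x) (x1 : x ≤ 3 / 5) (y0 : 0 ≤ y) (y1 : y ≤ 3 / 5) (c : Cl w A B) (A1 : A ≤ 1) :
    Bd (np x) (nr y - kpr x y) 0 x y (ws x y) (ws x y) (fun _ _ => True) flA w A B (bsr w (1 - A) + 0 * (A + B - w)) := by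
  refine bd_loss (st_s x0 x1 y0 y1 c) (fun h => ?_) fun h => ?_
  · have := vl_cases (fun a b => ms_capy_1l w A B c.w0.le c.w1 c.A0 c.B0 c.lo h a b A1)
        (fun a b => ms_capy_2l w A B c.w0.le c.w1 c.A0 c.B0 c.lo h a b A1)
        (fun a b => ms_capy_3l w A B c.w0.le c.w1 c.A0 c.B0 c.lo h a b A1)
        (fun a b => ms_capy_4l w A B c.w0.le c.w1 c.A0 c.B0 c.lo h a b A1)
    linarith
  · have := vl_cases (fun a b => ms_capy_1h x0 x1 y0 y1 w A B c.w0.le c.w1 c.A0 c.B0 h c.hi a b A1)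
        (fun a b => ms_capy_2h x0 x1 y0 y1 w A B c.w0.le c.w1 c.A0 c.B0 h c.hi a b A1)
        (fun a b => ms_capy_3h x0 x1 y0 y1 w A B c.w0.le c.w1 c.A0 c.B0 h c.hi a b A1)
        (fun a b => ms_capy_4h x0 x1 y0 y1 w A B c.w0.le c.w1 c.A0 c.B0 h c.hi a b A1)
    linarith

theorem s_capx (x0 : 0 ≤ x) (x1 : x ≤ 3 / 5) (y0 : 0 ≤ y) (y1 : y ≤ 3 / 5) (c : Cl w A B) (B1 : B ≤ 1) :
    Bd (np x) (nr y - kpr x y) 0 x y (ws x y) (ws x y) (fun _ _ => True) flA w A B (bsp w (1 - B) + 0 * (A + B - w)) := by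
  refine bd_loss (st_s x0 x1 y0 y1 c) (fun h => ?_) fun h => ?_
  · have := vl_cases (fun a b => ms_capx_1l w A B c.w0.le c.w1 c.A0 c.B0 c.lo h a b B1)
        (fun a b => ms_capx_2l w A B c.w0.le c.w1 c.A0 c.B0 c.lo h a b B1)
        (fun a b => ms_capx_3l w A B c.w0.le c.w1 c.A0 c.B0 c.lo h a b B1)
        (fun a b => ms_capx_4l w A B c.w0.le c.w1 c.A0 c.B0 c.lo h a b B1)
    linarith
  · have := vl_cases (fun a b => ms_capx_1h x0 x1 y0 y1 w A B c.w0.le c.w1 c.A0 c.B0 h c.hi a b B1)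
        (fun a b => ms_capx_2h x0 x1 y0 y1 w A B c.w0.le c.w1 c.A0 c.B0 h c.hi a b B1)
        (fun a b => ms_capx_3h x0 x1 y0 y1 w A B c.w0.le c.w1 c.A0 c.B0 h c.hi a b B1)
        (fun a b => ms_capx_4h x0 x1 y0 y1 w A B c.w0.le c.w1 c.A0 c.B0 h c.hi a b B1)
    linarith

theorem s_chy (x0 : 0 ≤ x) (x1 : x ≤ 3 / 5) (y0 : 0 ≤ y) (y1 : y ≤ 3 / 5) (c : Cl w A B) (A1 : A ≤ 1) (B1 : B ≤ 1)
    (t0 : 0 ≤ t) (t1 : t ≤ 1 - B) :
    Bd (np x) (nr y - kpr x y) 0 x y (ws x y) (ws x y) (fun _ _ => True) flA w A B (gg + 0 - brp (1 - A) t - fp t + 0 * (A + B - w)) := by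
  refine bd_loss (st_s x0 x1 y0 y1 c) (fun h => ?_) fun h => ?_
  · have := vl_cases (fun a b => ms_chy_1l w A B t c.w0.le c.w1 c.A0 c.B0 c.lo h a b A1 B1 t0 t1)
        (fun a b => ms_chy_2l w A B t c.w0.le c.w1 c.A0 c.B0 c.lo h a b A1 B1 t0 t1)
        (fun a b => ms_chy_3l w A B t c.w0.le c.w1 c.A0 c.B0 c.lo h a b A1 B1 t0 t1)
        (fun a b => ms_chy_4l w A B t c.w0.le c.w1 c.A0 c.B0 c.lo h a b A1 B1 t0 t1)
    unfold gg
    linarith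
  · have := vl_cases (fun a b => ms_chy_1h x0 x1 y0 y1 w A B t c.w0.le c.w1 c.A0 c.B0 h c.hi a b A1 B1 t0 t1)
        (fun a b => ms_chy_2h x0 x1 y0 y1 w A B t c.w0.le c.w1 c.A0 c.B0 h c.hi a b A1 B1 t0 t1)
        (fun a b => ms_chy_3h x0 x1 y0 y1 w A B t c.w0.le c.w1 c.A0 c.B0 h c.hi a b A1 B1 t0 t1)
        (fun a b => ms_chy_4h x0 x1 y0 y1 w A B t c.w0.le c.w1 c.A0 c.B0 h c.hi a b A1 B1 t0 t1)
    unfold gg
    linarith

theorem s_chx (x0 : 0 ≤ x) (x1 : x ≤ 3 / 5) (y0 : 0 ≤ y) (y1 : y ≤ 3 / 5) (c : Cl w A B) (A1 : A ≤ 1) (B1 : B ≤ 1)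
    (t0 : 0 ≤ t) (t1 : t ≤ 1 - A) :
    Bd (np x) (nr y - kpr x y) 0 x y (ws x y) (ws x y) (fun _ _ => True) flA w A B (gg + 0 - bpr (1 - B) t - fr t + 0 * (A + B - w)) := by
  refine bd_loss (st_s x0 x1 y0 y1 c) (fun h => ?_) fun h => ?_
  · have := vl_cases (fun a b => ms_chx_1l w A B t c.w0.le c.w1 c.A0 c.B0 c.lo h a b A1 B1 t0 t1)
        (fun a b => ms_chx_2l w A B t c.w0.le c.w1 c.A0 c.B0 c.lo h a b A1 B1 t0 t1)
        (fun a b => ms_chx_3l w A B t c.w0.le c.w1 c.A0 c.B0 c.lo h a b A1 B1 t0 t1)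
        (fun a b => ms_chx_4l w A B t c.w0.le c.w1 c.A0 c.B0 c.lo h a b A1 B1 t0 t1)
    unfold gg
    linarith
  · have := vl_cases (fun a b => ms_chx_1h x0 x1 y0 y1 w A B t c.w0.le c.w1 c.A0 c.B0 h c.hi a b A1 B1 t0 t1)
        (fun a b => ms_chx_2h x0 x1 y0 y1 w A B t c.w0.le c.w1 c.A0 c.B0 h c.hi a b A1 B1 t0 t1)
        (fun a b => ms_chx_3h x0 x1 y0 y1 w A B t c.w0.le c.w1 c.A0 c.B0 h c.hi a b A1 B1 t0 t1)
        (fun a b => ms_chx_4h x0 x1 y0 y1 w A B t c.w0.le c.w1 c.A0 c.B0 h c.hi a b A1 B1 t0 t1)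
    unfold gg
    linarith

end

/-- **The column `p`.** -/
theorem modes_p {x y : ℝ} (x0 : 0 ≤ x) (x1 : x ≤ 3 / 5) (y0 : 0 ≤ y) (y1 : y ≤ 3 / 5) :
    ModesC (nr x) (ns y) (krs x y) x y (wp x y) (wp x y) 0 gg 0 (fun _ _ _ _ _ => True) flA
      fp fr fs bpr bps brs bsr where
  one := fun _ _ _ c => p_one x0 x1 y0 y1 c
  top := fun w A B c => by
    rcases le_total A 1 with A1 | A1
    · have := fs_nn (w := 1 - A) (by linarith)
      exact (p_twoy x0 x1 y0 y1 c A1).mono (by linarith)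
    · have B1 : B ≤ 1 := by linarith [c.hi, c.w1]
      have := fr_nn (w := 1 - B) (by linarith)
      exact (p_twox x0 x1 y0 y1 c B1).mono (by linarith)
  twoy := fun _ _ _ c A1 => p_twoy x0 x1 y0 y1 c A1
  twox := fun _ _ _ c B1 => p_twox x0 x1 y0 y1 c B1
  chainy := fun _ _ _ _ c A1 t0 t1 => p_chy x0 x1 y0 y1 c A1 (by linarith) t0 t1
  chainx := fun _ _ _ _ c B1 t0 t1 => p_chx x0 x1 y0 y1 c (by linarith) B1 t0 t1
  capy := fun w A B u c h0 h1 =>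
    (p_capy x0 x1 y0 y1 c (by linarith)).mono (by
      have := bps_c c.w0.le h0 h1
      linarith)
  capx := fun w A B u c h0 h1 =>
    (p_capx x0 x1 y0 y1 c (by linarith)).mono (by
      have := bpr_c c.w0.le c.w1 h0 h1
      linarith)

/-- **The column `r`.** -/
theorem modes_r {x y : ℝ} (x0 : 0 ≤ x) (x1 : x ≤ 3 / 5) (y0 : 0 ≤ y) (y1 : y ≤ 3 / 5) :
    ModesC (np x) (ns y) (kps x y) x y (wr x y) (wr x y) (sr x) gg 0 (fun _ A _ u _ => 1 - A + x < u) flB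
      fr fp fs brp brs bps bsp where
  one := fun _ _ _ c => r_one x0 x1 y0 y1 c
  top := fun w A B c => by
    rcases le_total A 1 with A1 | A1
    · have := fs_nn (w := 1 - A) (by linarith)
      exact (r_twoy x0 x1 y0 y1 c A1).mono (by linarith)
    · have B1 : B ≤ 1 := by linarith [c.hi, c.w1]
      have := fp_nn (w := 1 - B) (by linarith)
      exact (r_twox x0 x1 y0 y1 c B1).mono (by linarith)
  twoy := fun _ _ _ c A1 => r_twoy x0 x1 y0 y1 c A1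
  twox := fun _ _ _ c B1 => r_twox x0 x1 y0 y1 c B1
  chainy := fun _ _ _ _ c A1 t0 t1 => r_chy x0 x1 y0 y1 c A1 (by linarith) t0 t1
  chainx := fun _ _ _ _ c B1 t0 t1 => r_chx x0 x1 y0 y1 c (by linarith) B1 t0 t1
  capy := fun w A B u c h0 h1 =>
    (r_capy x0 x1 y0 y1 c (by linarith)).mono (by
      have := brs_c c.w0.le h0 h1
      linarith)
  capx := fun w A B u c h0 h1 =>
    (r_capx x0 x1 y0 y1 c (by linarith)).mono (by
      have := brp_c c.w0.le h0 h1 (by linarith [c.B0])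
      linarith)

/-- **The column `s`.** -/
theorem modes_s {x y : ℝ} (x0 : 0 ≤ x) (x1 : x ≤ 3 / 5) (y0 : 0 ≤ y) (y1 : y ≤ 3 / 5) :
    ModesC (np x) (nr y - kpr x y) 0 x y (ws x y) (ws x y) 0 gg 0 (fun _ _ _ _ _ => True) flA
      fs fp fr bsp bsr bpr brp where
  one := fun _ _ _ c => s_one x0 x1 y0 y1 c
  top := fun w A B c => by
    rcases le_total A 1 with A1 | A1
    · have := fr_nn (w := 1 - A) (by linarith)
      exact (s_twoy x0 x1 y0 y1 c A1).mono (by linarith)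
    · have B1 : B ≤ 1 := by linarith [c.hi, c.w1]
      have := fp_nn (w := 1 - B) (by linarith)
      exact (s_twox x0 x1 y0 y1 c B1).mono (by linarith)
  twoy := fun _ _ _ c A1 => s_twoy x0 x1 y0 y1 c A1
  twox := fun _ _ _ c B1 => s_twox x0 x1 y0 y1 c B1
  chainy := fun _ _ _ _ c A1 t0 t1 => s_chy x0 x1 y0 y1 c A1 (by linarith) t0 t1
  chainx := fun _ _ _ _ c B1 t0 t1 => s_chx x0 x1 y0 y1 c (by linarith) B1 t0 t1
  capy := fun w A B u c h0 h1 =>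
    (s_capy x0 x1 y0 y1 c (by linarith)).mono (by
      have := bsr_c c.w0.le h0 h1
      linarith)
  capx := fun w A B u c h0 h1 =>
    (s_capx x0 x1 y0 y1 c (by linarith)).mono (by
      have := bsp_c c.w0.le h0 h1
      linarith)

end Pool.Agent.Helper83.OL
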