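import Pool.Agent.Helper19.TS.BrAsm
import Pool.Agent.Helper36.TZ.BrA
import Pool.Agent.Helper83.OL.Mod

/-!
# The case `OL1Br`
-/

set_option autoImplicit false

namespace Pool.Agent.Helper83.OL

open Pool.Agent.Helper74.TS

/-- **The case `OL1Br`.** -/
theorem ol1Br : OL1Br :=
  Pool.Agent.Helper19.TS.Br.ol1Br_of (fun _ _ x0 x1 y0 y1 => modes_p x0 x1.le y0 y1.le)
    (fun _ _ x0 x1 y0 y1 => modes_r x0 x1.le y0 y1.le)
    (fun _ _ x0 x1 y0 y1 => modes_s x0 x1.le y0 y1.le)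
    fun _ _ _ _ _ _ R p0 r0 s0 hs => Pool.Agent.Helper78.TS.Neg.multi R
      (Pool.Agent.Helper36.TZ.Br.colN p0 R.dx.le r0 R.dy.le s0 R.dz.le hs.le)

end Pool.Agent.Helper83.OL
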