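import Pool.Agent.Helper70.OL.Lst

/-!
# The states of a two-row column with the cell, with a loss

`LT nx ny k X Y W A B l`: the lists of one side for the number `vl w A B - l`, where the loss `l` does
not depend on `w`; the base `w` is eliminated by the bounds of `T = max w s + w - A - B`.
-/

set_option autoImplicit false

namespace Pool.Agent.Helper83.OL

open Pool.Agent.Helper84.TS Pool.Agent.Helper36.TS Pool.Agent.Helper74.TS Pool.Agent.Helper83.TS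
  Pool.Agent.Helper78.TS Pool.Agent.Helper70.OL

/-- **The lists of one side with the loss `l`.** -/
structure LT (nx ny k X Y W A B l : ℝ) : Prop where
  c1 : ∀ u v, 0 ≤ v → v ≤ u → u ≤ 1 → u ≤ 1 - A + X → v ≤ 1 - B + Y →
    st nx X u + st (ny - k) Y v + l ≤ W
  c3 : 1 + Y ≤ B → ∀ u, 0 ≤ u → u ≤ 1 → u ≤ 1 - A + X →
    st nx X u + ng (ny - k) Y (B - 1 - Y) + l ≤ W
  f11a : ∀ s v T, 0 ≤ T → T ≤ 2 - A - B → T ≤ A + B - 9 / 10 → s ≤ T → 0 ≤ s → s ≤ 13 / 20 →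
    A - 1 ≤ s → 0 ≤ v → v ≤ X - s → v ≤ 1 - B + Y →
    st nx X (X - s) + st (ny - k) Y v + (s * T - s ^ 3 / 3) + l ≤ W
  f11b : ∀ s v T, 0 ≤ T → T ≤ 2 - A - B → T ≤ A + B - 9 / 10 → T ≤ s → 0 ≤ s → s ≤ 13 / 20 →
    A - 1 ≤ s → 0 ≤ v → v ≤ X - s → v ≤ 1 - B + Y →
    st nx X (X - s) + st (ny - k) Y v + (s * T - T ^ 3 / 3) + l ≤ W
  f12a : ∀ s v T, 0 ≤ T → T ≤ 1 / 5 → T ≤ 13 / 10 - A - B → s ≤ T → 0 ≤ s → s ≤ 13 / 20 →
    A - 1 ≤ s → 0 ≤ v → v ≤ X - s → v ≤ 1 - B + Y →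
    st nx X (X - s) + st (ny - k) Y v + (s * T - s ^ 3 / 3) + l ≤ W
  f12b : ∀ s v T, 0 ≤ T → T ≤ 1 / 5 → T ≤ 13 / 10 - A - B → T ≤ s → 0 ≤ s → s ≤ 13 / 20 →
    A - 1 ≤ s → 0 ≤ v → v ≤ X - s → v ≤ 1 - B + Y →
    st nx X (X - s) + st (ny - k) Y v + (s * T - T ^ 3 / 3) + l ≤ W
  f21a : ∀ s v T, 0 ≤ T → T ≤ 2 - A - B → T ≤ A + B - 9 / 10 → s ≤ T → 0 ≤ s → s ≤ 13 / 20 →
    A - 1 ≤ s → 0 ≤ v → v ≤ 1 → X - s ≤ v → v ≤ 1 - B + Y →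
    mj (nx - k) (1 - X) X s + st ny Y v + (s * T - s ^ 3 / 3) + l ≤ W
  f21b : ∀ s v T, 0 ≤ T → T ≤ 2 - A - B → T ≤ A + B - 9 / 10 → T ≤ s → 0 ≤ s → s ≤ 13 / 20 →
    A - 1 ≤ s → 0 ≤ v → v ≤ 1 → X - s ≤ v → v ≤ 1 - B + Y →
    mj (nx - k) (1 - X) X s + st ny Y v + (s * T - T ^ 3 / 3) + l ≤ W
  f22a : ∀ s v T, 0 ≤ T → T ≤ 1 / 5 → T ≤ 13 / 10 - A - B → s ≤ T → 0 ≤ s → s ≤ 13 / 20 →
    A - 1 ≤ s → 0 ≤ v → v ≤ 1 → X - s ≤ v → v ≤ 1 - B + Y →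
    mj (nx - k) (1 - X) X s + st ny Y v + (s * T - s ^ 3 / 3) + l ≤ W
  f22b : ∀ s v T, 0 ≤ T → T ≤ 1 / 5 → T ≤ 13 / 10 - A - B → T ≤ s → 0 ≤ s → s ≤ 13 / 20 →
    A - 1 ≤ s → 0 ≤ v → v ≤ 1 → X - s ≤ v → v ≤ 1 - B + Y →
    mj (nx - k) (1 - X) X s + st ny Y v + (s * T - T ^ 3 / 3) + l ≤ W
  f31a : 1 + Y ≤ B → ∀ s T, 0 ≤ T → T ≤ 2 - A - B → T ≤ A + B - 9 / 10 → s ≤ T → 0 ≤ s →
    s ≤ 13 / 20 → s ≤ X + (B - 1 - Y) →
    mj nx (1 - X) X s + ng (ny - k) Y (B - 1 - Y) + (s * T - s ^ 3 / 3) + l ≤ W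
  f31b : 1 + Y ≤ B → ∀ s T, 0 ≤ T → T ≤ 2 - A - B → T ≤ A + B - 9 / 10 → T ≤ s → 0 ≤ s →
    s ≤ 13 / 20 → s ≤ X + (B - 1 - Y) →
    mj nx (1 - X) X s + ng (ny - k) Y (B - 1 - Y) + (s * T - T ^ 3 / 3) + l ≤ W
  f32a : 1 + Y ≤ B → ∀ s T, 0 ≤ T → T ≤ 1 / 5 → T ≤ 13 / 10 - A - B → s ≤ T → 0 ≤ s →
    s ≤ 13 / 20 → s ≤ X + (B - 1 - Y) →
    mj nx (1 - X) X s + ng (ny - k) Y (B - 1 - Y) + (s * T - s ^ 3 / 3) + l ≤ W
  f32b : 1 + Y ≤ B → ∀ s T, 0 ≤ T → T ≤ 1 / 5 → T ≤ 13 / 10 - A - B → T ≤ s → 0 ≤ s →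
    s ≤ 13 / 20 → s ≤ X + (B - 1 - Y) →
    mj nx (1 - X) X s + ng (ny - k) Y (B - 1 - Y) + (s * T - T ^ 3 / 3) + l ≤ W
  f41a : 1 + Y ≤ B → ∀ s T, 0 ≤ T → T ≤ 2 - A - B → T ≤ A + B - 9 / 10 → s ≤ T → 0 ≤ s →
    s ≤ 13 / 20 → X + (B - 1 - Y) ≤ s →
    mj (nx - k) (1 - X) X s + ng ny Y (B - 1 - Y) + (s * T - s ^ 3 / 3) + l ≤ W
  f41b : 1 + Y ≤ B → ∀ s T, 0 ≤ T → T ≤ 2 - A - B → T ≤ A + B - 9 / 10 → T ≤ s → 0 ≤ s →
    s ≤ 13 / 20 → X + (B - 1 - Y) ≤ s →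
    mj (nx - k) (1 - X) X s + ng ny Y (B - 1 - Y) + (s * T - T ^ 3 / 3) + l ≤ W
  f42a : 1 + Y ≤ B → ∀ s T, 0 ≤ T → T ≤ 1 / 5 → T ≤ 13 / 10 - A - B → s ≤ T → 0 ≤ s →
    s ≤ 13 / 20 → X + (B - 1 - Y) ≤ s →
    mj (nx - k) (1 - X) X s + ng ny Y (B - 1 - Y) + (s * T - s ^ 3 / 3) + l ≤ W
  f42b : 1 + Y ≤ B → ∀ s T, 0 ≤ T → T ≤ 1 / 5 → T ≤ 13 / 10 - A - B → T ≤ s → 0 ≤ s →
    s ≤ 13 / 20 → X + (B - 1 - Y) ≤ s →
    mj (nx - k) (1 - X) X s + ng ny Y (B - 1 - Y) + (s * T - T ^ 3 / 3) + l ≤ W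
  f5 : 13 / 20 ≤ A - 1 → ∀ v T, 0 ≤ T → T ≤ 2 - A - B → T ≤ A + B - 9 / 10 → 0 ≤ v → v ≤ 1 →
    v ≤ 1 - B + Y →
    mj (nx - k) (1 - X) X (A - 1) + st ny Y v + 13 / 20 * T + l ≤ W
  y11 : ∀ s r T, 0 ≤ T → T ≤ 2 - A - B → T ≤ A + B - 9 / 10 → 1 ≤ B → 0 ≤ s → s ≤ 13 / 20 →
    B - 1 ≤ r → r ≤ 13 / 20 → Y - r ≤ X - s →
    mj nx (1 - X) X s + mj (ny - k) (1 - Y) Y r + (13 / 20 * s + r) * T + l ≤ W
  y12 : ∀ s r T, 0 ≤ T → T ≤ 1 / 5 → T ≤ 13 / 10 - A - B → 1 ≤ B → 0 ≤ s → s ≤ 13 / 20 →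
    B - 1 ≤ r → r ≤ 13 / 20 → Y - r ≤ X - s →
    mj nx (1 - X) X s + mj (ny - k) (1 - Y) Y r + (13 / 20 * s + r) * T + l ≤ W
  y21 : ∀ s r T, 0 ≤ T → T ≤ 2 - A - B → T ≤ A + B - 9 / 10 → 1 ≤ B → 0 ≤ s → s ≤ 13 / 20 →
    B - 1 ≤ r → r ≤ 13 / 20 → X - s ≤ Y - r →
    mj (nx - k) (1 - X) X s + mj ny (1 - Y) Y r + (13 / 20 * s + r) * T + l ≤ W
  y22 : ∀ s r T, 0 ≤ T → T ≤ 1 / 5 → T ≤ 13 / 10 - A - B → 1 ≤ B → 0 ≤ s → s ≤ 13 / 20 →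
    B - 1 ≤ r → r ≤ 13 / 20 → X - s ≤ Y - r →
    mj (nx - k) (1 - X) X s + mj ny (1 - Y) Y r + (13 / 20 * s + r) * T + l ≤ W
  y3 : 13 / 20 ≤ B - 1 → ∀ s T, 0 ≤ T → T ≤ 2 - A - B → T ≤ A + B - 9 / 10 → 0 ≤ s →
    s ≤ 13 / 20 → Y - (B - 1) ≤ X - s →
    mj nx (1 - X) X s + mj (ny - k) (1 - Y) Y (B - 1) + (13 / 20 * s + 13 / 20) * T + l ≤ W
  y4 : 13 / 20 ≤ B - 1 → ∀ s T, 0 ≤ T → T ≤ 2 - A - B → T ≤ A + B - 9 / 10 → 0 ≤ s →
    s ≤ 13 / 20 → X - s ≤ Y - (B - 1) →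
    mj (nx - k) (1 - X) X s + mj ny (1 - Y) Y (B - 1) + (13 / 20 * s + 13 / 20) * T + l ≤ W
  r1 : ∀ d o, 0 ≤ d → d ≤ 3 / 10 → d ≤ X → A ≤ d → 0 ≤ o → o ≤ 13 / 20 → 29 / 20 - d ≤ B →
    Y - (B - 1) ≤ X - (d + o) →
    mj nx (1 - X) X (d + o) + mj (ny - k) (1 - Y) Y (B - 1) + fo2 o d + l ≤ W
  r2 : ∀ d o, 0 ≤ d → d ≤ 3 / 10 → d ≤ X → A ≤ d → 0 ≤ o → o ≤ 13 / 20 → 29 / 20 - d ≤ B →
    X - (d + o) ≤ Y - (B - 1) →
    mj (nx - k) (1 - X) X (d + o) + mj ny (1 - Y) Y (B - 1) + fo2 o d + l ≤ W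
  s1 : ∀ d o r T, 0 ≤ d → d ≤ 3 / 10 → d ≤ X → A ≤ d → 0 ≤ o → o ≤ 13 / 20 → 29 / 20 - d ≤ B →
    B - 1 ≤ r → r ≤ 13 / 20 → 0 ≤ T → T ≤ 2 - A - B → T ≤ A + B - 9 / 10 →
    Y - r ≤ X - (d + o) →
    mj nx (1 - X) X (d + o) + mj (ny - k) (1 - Y) Y r + fo2 o d + r * T + l ≤ W
  s2 : ∀ d o r T, 0 ≤ d → d ≤ 3 / 10 → d ≤ X → A ≤ d → 0 ≤ o → o ≤ 13 / 20 → 29 / 20 - d ≤ B →
    B - 1 ≤ r → r ≤ 13 / 20 → 0 ≤ T → T ≤ 2 - A - B → T ≤ A + B - 9 / 10 →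
    X - (d + o) ≤ Y - r →
    mj (nx - k) (1 - X) X (d + o) + mj ny (1 - Y) Y r + fo2 o d + r * T + l ≤ W
  t1 : ∀ d o T, 0 ≤ d → d ≤ 3 / 10 → d ≤ X → A ≤ d → 0 ≤ o → o ≤ 13 / 20 → 29 / 20 - d ≤ B →
    13 / 20 ≤ B - 1 → 0 ≤ T → T ≤ 2 - A - B → T ≤ A + B - 9 / 10 →
    Y - (B - 1) ≤ X - (d + o) →
    mj nx (1 - X) X (d + o) + mj (ny - k) (1 - Y) Y (B - 1) + fo2 o d + 13 / 20 * T + l ≤ W
  t2 : ∀ d o T, 0 ≤ d → d ≤ 3 / 10 → d ≤ X → A ≤ d → 0 ≤ o → o ≤ 13 / 20 → 29 / 20 - d ≤ B →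
    13 / 20 ≤ B - 1 → 0 ≤ T → T ≤ 2 - A - B → T ≤ A + B - 9 / 10 →
    X - (d + o) ≤ Y - (B - 1) →
    mj (nx - k) (1 - X) X (d + o) + mj ny (1 - Y) Y (B - 1) + fo2 o d + 13 / 20 * T + l ≤ W

section

variable {nx ny k X Y W w A B l : ℝ}

theorem bn_a {s T : ℝ} (h : s ≤ T) : bn s T = s * T - s ^ 3 / 3 := by
  unfold bn
  rw [min_eq_left h]

theorem bn_b {s T : ℝ} (h : T ≤ s) : bn s T = s * T - T ^ 3 / 3 := by
  unfold bn
  rw [min_eq_right h]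

/-- the field `x` -/
theorem LT.lx (L : LT nx ny k X Y W A B l) (w1 : w ≤ 1) (lo : w + 9 / 20 < A + B) :
    LX nx ny k X Y W w A B (vl w A B - l) where
  f1 := by
    intro s v s0 s1 hA v0 vu cv T0
    rcases le_total w s with h | h
    · rw [max_eq_right h] at T0 ⊢
      rcases le_total s (s + w - A - B) with k1 | k1
      · rw [bn_a k1]
        linarith [L.f12a s v (s + w - A - B) T0 (by linarith) (by linarith) k1 s0 s1 hA v0 vu cv]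
      · rw [bn_b k1]
        linarith [L.f12b s v (s + w - A - B) T0 (by linarith) (by linarith) k1 s0 s1 hA v0 vu cv]
    · rw [max_eq_left h] at T0 ⊢
      rcases le_total s (w + w - A - B) with k1 | k1
      · rw [bn_a k1]
        linarith [L.f11a s v (w + w - A - B) T0 (by linarith) (by linarith) k1 s0 s1 hA v0 vu cv]
      · rw [bn_b k1]
        linarith [L.f11b s v (w + w - A - B) T0 (by linarith) (by linarith) k1 s0 s1 hA v0 vu cv]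
  f2 := by
    intro s v s0 s1 hA v0 v1 vu cv T0
    rcases le_total w s with h | h
    · rw [max_eq_right h] at T0 ⊢
      rcases le_total s (s + w - A - B) with k1 | k1
      · rw [bn_a k1]
        linarith [L.f22a s v (s + w - A - B) T0 (by linarith) (by linarith) k1 s0 s1 hA v0 v1 vu cv]
      · rw [bn_b k1]
        linarith [L.f22b s v (s + w - A - B) T0 (by linarith) (by linarith) k1 s0 s1 hA v0 v1 vu cv]
    · rw [max_eq_left h] at T0 ⊢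
      rcases le_total s (w + w - A - B) with k1 | k1
      · rw [bn_a k1]
        linarith [L.f21a s v (w + w - A - B) T0 (by linarith) (by linarith) k1 s0 s1 hA v0 v1 vu cv]
      · rw [bn_b k1]
        linarith [L.f21b s v (w + w - A - B) T0 (by linarith) (by linarith) k1 s0 s1 hA v0 v1 vu cv]
  f3 := by
    intro hB s s0 s1 od T0
    rcases le_total w s with h | h
    · rw [max_eq_right h] at T0 ⊢
      rcases le_total s (s + w - A - B) with k1 | k1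
      · rw [bn_a k1]
        linarith [L.f32a hB.le s (s + w - A - B) T0 (by linarith) (by linarith) k1 s0 s1 od]
      · rw [bn_b k1]
        linarith [L.f32b hB.le s (s + w - A - B) T0 (by linarith) (by linarith) k1 s0 s1 od]
    · rw [max_eq_left h] at T0 ⊢
      rcases le_total s (w + w - A - B) with k1 | k1
      · rw [bn_a k1]
        linarith [L.f31a hB.le s (w + w - A - B) T0 (by linarith) (by linarith) k1 s0 s1 od]
      · rw [bn_b k1]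
        linarith [L.f31b hB.le s (w + w - A - B) T0 (by linarith) (by linarith) k1 s0 s1 od]
  f4 := by
    intro hB s s0 s1 od T0
    rcases le_total w s with h | h
    · rw [max_eq_right h] at T0 ⊢
      rcases le_total s (s + w - A - B) with k1 | k1
      · rw [bn_a k1]
        linarith [L.f42a hB.le s (s + w - A - B) T0 (by linarith) (by linarith) k1 s0 s1 od]
      · rw [bn_b k1]
        linarith [L.f42b hB.le s (s + w - A - B) T0 (by linarith) (by linarith) k1 s0 s1 od]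
    · rw [max_eq_left h] at T0 ⊢
      rcases le_total s (w + w - A - B) with k1 | k1
      · rw [bn_a k1]
        linarith [L.f41a hB.le s (w + w - A - B) T0 (by linarith) (by linarith) k1 s0 s1 od]
      · rw [bn_b k1]
        linarith [L.f41b hB.le s (w + w - A - B) T0 (by linarith) (by linarith) k1 s0 s1 od]
  f5 := by
    intro hA v v0 v1 cv T0
    have h := L.f5 hA.le v (2 * w - A - B) T0 (by linarith) (by linarith) v0 v1 cv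
    have := bn_le (o := 13 / 20) (by norm_num) T0
    linarith

/-- two own far cells -/
theorem LT.ly (L : LT nx ny k X Y W A B l) (w1 : w ≤ 1) (lo : w + 9 / 20 < A + B) (hB : 1 < B) :
    LY nx ny k X Y W w A B (vl w A B - l) where
  y1 := by
    intro s r T s0 s1 r0 r1 od hT T0
    rcases le_total w (13 / 20) with h | h
    · rw [max_eq_right h] at hT
      linarith [L.y12 s r T T0 (by linarith) (by linarith) hB.le s0 s1 r0 r1 od]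
    · rw [max_eq_left h] at hT
      linarith [L.y11 s r T T0 (by linarith) (by linarith) hB.le s0 s1 r0 r1 od]
  y2 := by
    intro s r T s0 s1 r0 r1 od hT T0
    rcases le_total w (13 / 20) with h | h
    · rw [max_eq_right h] at hT
      linarith [L.y22 s r T T0 (by linarith) (by linarith) hB.le s0 s1 r0 r1 od]
    · rw [max_eq_left h] at hT
      linarith [L.y21 s r T T0 (by linarith) (by linarith) hB.le s0 s1 r0 r1 od]
  y3 := by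
    intro hB2 s s0 s1 od T0
    linarith [L.y3 hB2.le s (2 * w - A - B) T0 (by linarith) (by linarith) s0 s1 od]
  y4 := by
    intro hB2 s s0 s1 od T0
    linarith [L.y4 hB2.le s (2 * w - A - B) T0 (by linarith) (by linarith) s0 s1 od]

/-- the crude states -/
theorem LT.lr (L : LT nx ny k X Y W A B l) (w1 : w ≤ 1) (lo : w + 9 / 20 < A + B) :
    LR nx ny k X Y W w A B (vl w A B - l) where
  r1 := by
    intro d o d0 d1 dX hA o0 o1 _ od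
    linarith [L.r1 d o d0 d1 dX (by linarith) o0 o1 (by linarith) od]
  r2 := by
    intro d o d0 d1 dX hA o0 o1 _ od
    linarith [L.r2 d o d0 d1 dX (by linarith) o0 o1 (by linarith) od]
  s1 := by
    intro d o r d0 d1 dX hA o0 o1 r0 r1 T0 od
    linarith [L.s1 d o r (2 * w - A - B) d0 d1 dX (by linarith) o0 o1 (by linarith) r0 r1 T0
      (by linarith) (by linarith) od]
  s2 := by
    intro d o r d0 d1 dX hA o0 o1 r0 r1 T0 od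
    linarith [L.s2 d o r (2 * w - A - B) d0 d1 dX (by linarith) o0 o1 (by linarith) r0 r1 T0
      (by linarith) (by linarith) od]
  t1 := by
    intro hB d o d0 d1 dX hA o0 o1 T0 od
    linarith [L.t1 d o (2 * w - A - B) d0 d1 dX (by linarith) o0 o1 (by linarith) hB.le T0
      (by linarith) (by linarith) od]
  t2 := by
    intro hB d o d0 d1 dX hA o0 o1 T0 od
    linarith [L.t2 d o (2 * w - A - B) d0 d1 dX (by linarith) o0 o1 (by linarith) hB.le T0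
      (by linarith) (by linarith) od]

/-- no own far cell -/
theorem LT.lc (L : LT nx ny k X Y W A B l) (L' : LT ny nx k Y X W B A l) :
    LC nx ny k X Y W w A B (vl w A B - l) where
  c1 := fun u v v0 vu u1 cu cv => by linarith [L.c1 u v v0 vu u1 cu cv]
  c2 := fun u v u0 uv v1 cu cv => by linarith [L'.c1 v u u0 uv v1 cv cu]
  c3 := fun hB u u0 u1 cu => by linarith [L.c3 hB.le u u0 u1 cu]
  c4 := fun hA v v0 v1 cv => by linarith [L'.c3 hA.le v v0 v1 cv]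

/-- all the lists of one side -/
theorem LT.ls (L : LT nx ny k X Y W A B l) (L' : LT ny nx k Y X W B A l) (w1 : w ≤ 1)
    (lo : w + 9 / 20 < A + B) : LS nx ny k X Y W w A B (vl w A B - l) :=
  ⟨L.lc L', L.lx w1 lo, L.lr w1 lo, fun hB => L.ly w1 lo hB⟩

/-- **Both lists of states of a column with a loss.** -/
theorem LT.st2 (L : LT nx ny k X Y W A B l) (L' : LT ny nx k Y X W B A l)
    (g : Sg nx ny k X Y) (Sx : Side (nx - k) X) (Sy : Side (ny - k) Y) (w1 : w ≤ 1) (A0 : 0 ≤ A)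
    (B0 : 0 ≤ B) (lo : w + 9 / 20 < A + B) (hi : A + B ≤ 1 + w) :
    St2 nx ny k X Y W (fun _ _ => True) True True w A B (vl w A B - l) := by
  have h' := L'.ls L w1 (by linarith : w + 9 / 20 < B + A)
  rw [vl_comm w B A] at h'
  exact St2.of Sx Sy g.k0 ⟨fun _ _ _ _ => trivial, fun _ _ _ _ => trivial⟩
    ⟨fun _ _ _ _ => trivial, fun _ _ _ _ => trivial⟩ w1 A0 B0
    (st1_of g (L.ls L' w1 lo) w1 A0 B0 lo hi)
    (st1_of ⟨g.k0, g.ky, g.kx, g.Y0, g.Y1, g.X0, g.X1⟩ h' w1 B0 A0 (by linarith) (by linarith))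

end

end Pool.Agent.Helper83.OL
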