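import Pool.Agent.Helper83.OL.Dig
import Pool.Agent.Helper83.OL.Loss
import Pool.Agent.Helper78.TS.PieceC
import Pool.Agent.Helper8.TS.OL0Vl

/-!
# The modes of a column with a loss
-/

set_option autoImplicit false

namespace Pool.Agent.Helper83.OL

open Pool.Agent.Helper84.TS Pool.Agent.Helper36.TS Pool.Agent.Helper74.TS Pool.Agent.Helper78.TS
open Pool.Agent.Helper5.TS

section

variable {nx ny k X Y W W' s w A B l m m' : ℝ} {R : ℝ → ℝ → Prop} {f : Fl}

/-- the four regions of the volume -/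
theorem vl_cases (h1 : w ≤ A → w ≤ B → w * A * B - w ^ 3 / 3 ≤ m)
    (h2 : A ≤ w → w ≤ B → w * A * B - w * w * A + w * A * A - A ^ 3 / 3 ≤ m)
    (h3 : w ≤ A → B ≤ w → w * A * B - w * w * B + w * B * B - B ^ 3 / 3 ≤ m)
    (h4 : A ≤ w → B ≤ w → w * A * B - w ^ 3 / 3 + ((w - A) ^ 3 + (w - B) ^ 3) / 3 ≤ m) :
    vl w A B ≤ m := by
  rcases le_total w A with hA | hA <;> rcases le_total w B with hB | hB
  · rw [Pool.Agent.Helper8.TS.vl_1 hA hB]
    exact h1 hA hB
  · rw [Pool.Agent.Helper8.TS.vl_3 hA hB]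
    exact h3 hA hB
  · rw [Pool.Agent.Helper8.TS.vl_2 hA hB]
    exact h2 hA hB
  · rw [Pool.Agent.Helper8.TS.vl_4 hA hB]
    exact h4 hA hB

/-- one value of the gain of a column with a loss, no witness -/
theorem bd_loss (S : w + 9 / 20 < A + B →
      St2 nx ny k X Y W (fun _ _ => True) True True w A B (vl w A B - l))
    (hl : A + B ≤ w + 9 / 20 → vl w A B ≤ m) (hh : w + 9 / 20 ≤ A + B → vl w A B ≤ m + l) :
    Bd nx ny k X Y W W (fun _ _ => True) flA w A B (m + 0 * (A + B - w)) :=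
  Bd.free (fun h => by
    have := hl h
    linarith) fun h _ => (S h).mono (by
      have := hh h.le
      linarith)

/-- one value of the gain of a witness column -/
theorem bd_wit (S : w + 9 / 20 < A + B → St2 nx ny k X Y W R False True w A B (vl w A B - l))
    (hh : w + 9 / 20 ≤ A + B → vl w A B ≤ m + s * (A + B - w) + l) :
    Bd nx ny k X Y W' W R flB w A B (m + s * (A + B - w)) :=
  Bd.wit (fun h => h) fun h => (S h).mono (by
      have := hh h.le
      linarith)

end

/-! ### Signs and monotonicity of the numbers -/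

section

variable {w c d : ℝ}

theorem fp_nn (w0 : 0 ≤ w) : 0 ≤ fp w := by
  unfold fp
  positivity

theorem fs_nn (w0 : 0 ≤ w) : 0 ≤ fs w := by
  unfold fs
  positivity

theorem fr_nn (w0 : 0 ≤ w) : 0 ≤ fr w := by
  unfold fr
  positivity

private theorem key {α β : ℝ} (h : c ≤ d) (q : 0 ≤ α) (e : β = (d - c) * α) : 0 ≤ β := by
  rw [e]
  exact mul_nonneg (by linarith) q

private theorem quad {a b : ℝ} (a0 : 0 < a) (x e : ℝ) (h : b ^ 2 ≤ 4 * a * e) :
    0 ≤ e - b * x + a * x ^ 2 := by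
  nlinarith [sq_nonneg (2 * a * x - b)]

theorem bpr_c (w0 : 0 ≤ w) (w1 : w ≤ 1) (c0 : 0 ≤ c) (h : c ≤ d) : bpr w d ≤ bpr w c := by
  have d0 := c0.trans h
  have h1 := mul_nonneg w0 (add_nonneg c0 d0)
  have h2 : w ^ 2 ≤ w := by nlinarith
  have := key (β := bpr w c - bpr w d) h
    (α := 113 / 25000 + 117 / 50000 * (c + d) + 10013 / 100000 * w - 361 / 100000 * w ^ 2
      + 18859 / 100000 * (w * (c + d))) (by linarith) (by unfold bpr; ring)
  linarith

theorem bps_c (w0 : 0 ≤ w) (c0 : 0 ≤ c) (h : c ≤ d) : bps w d ≤ bps w c := by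
  have d0 := c0.trans h
  have h1 := mul_nonneg w0 (add_nonneg c0 d0)
  have h2 := quad (a := 2193 / 20000) (b := 437 / 50000) (by norm_num) w (1 / 2000) (by norm_num)
  have := key (β := bps w c - bps w d) h
    (α := 1 / 2000 - 437 / 50000 * w + 2193 / 20000 * w ^ 2
      + 1219 / 6250 * (w * (c + d))) (by linarith) (by unfold bps; ring)
  linarith

theorem brs_c (w0 : 0 ≤ w) (c0 : 0 ≤ c) (h : c ≤ d) : brs w d ≤ brs w c := by
  have d0 := c0.trans h
  have h1 := mul_nonneg w0 (add_nonneg c0 d0)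
  have := key (β := brs w c - brs w d) h
    (α := 51 / 100000 + 18123 / 100000 * (c + d) + 4251 / 50000 * w + 19003 / 100000 * w ^ 2
      + 327 / 20000 * (w * (c + d))) (by positivity) (by unfold brs; ring)
  linarith

theorem bsp_c (w0 : 0 ≤ w) (c0 : 0 ≤ c) (h : c ≤ d) : bsp w d ≤ bsp w c := by
  have d0 := c0.trans h
  have h1 := mul_nonneg w0 (add_nonneg c0 d0)
  have h2 := quad (a := 369 / 4000) (b := 6457 / 100000) (by norm_num) w (1157 / 100000)
    (by norm_num)
  have := key (β := bsp w c - bsp w d) h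
    (α := 1157 / 100000 + 349 / 20000 * (c + d) - 6457 / 100000 * w + 369 / 4000 * w ^ 2
      + 17877 / 100000 * (w * (c + d))) (by linarith) (by unfold bsp; ring)
  linarith

theorem bsr_c (w0 : 0 ≤ w) (c0 : 0 ≤ c) (h : c ≤ d) : bsr w d ≤ bsr w c := by
  have d0 := c0.trans h
  have h1 := mul_nonneg w0 (add_nonneg c0 d0)
  have := key (β := bsr w c - bsr w d) h
    (α := 1 / 2000 + 1949 / 50000 * (c + d) + 11521 / 100000 * w + 4983 / 100000 * w ^ 2
      + 12771 / 50000 * (w * (c + d))) (by positivity) (by unfold bsr; ring)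
  linarith

theorem brp_c (w0 : 0 ≤ w) (c0 : 0 ≤ c) (h : c ≤ d) (d1 : d ≤ 1) : brp w d ≤ brp w c := by
  have d0 := c0.trans h
  have := key (β := brp w c - brp w d) h
    (α := 827 / 25000 - 1629 / 100000 * (c + d) - 4473 / 20000 * w + 38349 / 100000 * w ^ 2
      + 6107 / 50000 * (w * (c + d))) (by
        -- linear in `c + d` between `0` and `2`
        have h0 := quad (a := 38349 / 100000) (b := 4473 / 20000) (by norm_num) w (827 / 25000)
          (by norm_num)
        have h2 : 0 ≤ 827 / 25000 - 1629 / 100000 * 2 - 4473 / 20000 * w + 38349 / 100000 * w ^ 2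
            + 6107 / 50000 * (w * 2) := by nlinarith [sq_nonneg w]
        have e1 : 0 ≤ c + d := by linarith
        have e2 : 0 ≤ 2 - (c + d) := by linarith
        have := add_nonneg (mul_nonneg e2 h0) (mul_nonneg e1 h2)
        linarith) (by unfold brp; ring)
  linarith

end

/-! ### The side conditions -/

section

variable {x y : ℝ}

/-- the column `p`, the row `r` -/
theorem side_pr (x0 : 0 ≤ x) (x1 : x ≤ 3 / 5) (y0 : 0 ≤ y) (y1 : y ≤ 3 / 5) :
    Side (nr x - krs x y) x := by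
  have a1 := mul_nonneg x0 y0
  have a2 := mul_nonneg x0 (sub_nonneg.2 x1)
  have a3 := mul_nonneg (sub_nonneg.2 x1) (sub_nonneg.2 y1)
  have a4 := mul_nonneg y0 (sub_nonneg.2 x1)
  have a5 := mul_nonneg x0 (sub_nonneg.2 y1)
  refine ⟨?_, fun h => ?_, fun h => ?_⟩
  · unfold nr krs
    nlinarith
  · unfold nr krs
    nlinarith
  · have a6 := mul_nonneg x0 (sub_nonneg.2 h)
    unfold nr krs
    nlinarith

/-- the column `p`, the row `s` -/
theorem side_ps (x0 : 0 ≤ x) (x1 : x ≤ 3 / 5) (y0 : 0 ≤ y) (y1 : y ≤ 3 / 5) :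
    Side (ns y - krs x y) y := by
  have a1 := mul_nonneg x0 y0
  have a2 := mul_nonneg y0 (sub_nonneg.2 y1)
  have a3 := mul_nonneg (sub_nonneg.2 x1) (sub_nonneg.2 y1)
  have a4 := mul_nonneg y0 (sub_nonneg.2 x1)
  have a5 := mul_nonneg x0 (sub_nonneg.2 y1)
  refine ⟨?_, fun h => ?_, fun h => ?_⟩
  · unfold ns krs
    nlinarith
  · unfold ns krs
    nlinarith
  · have a6 := mul_nonneg y0 (sub_nonneg.2 h)
    unfold ns krs
    nlinarith

/-- the column `s`, the row `p` -/
theorem side_sp (x0 : 0 ≤ x) (x1 : x ≤ 3 / 5) : Side (np x - 0) x := by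
  have a2 := mul_nonneg x0 (sub_nonneg.2 x1)
  refine ⟨?_, fun h => ?_, fun h => ?_⟩
  · unfold np
    nlinarith
  · unfold np
    nlinarith
  · have a6 := mul_nonneg x0 (sub_nonneg.2 h)
    unfold np
    nlinarith

/-- the column `s`, the row `r` -/
theorem side_sr (x0 : 0 ≤ x) (x1 : x ≤ 3 / 5) (y0 : 0 ≤ y) (y1 : y ≤ 3 / 5) :
    Side (nr y - kpr x y - 0) y := by
  have a1 := mul_nonneg x0 y0
  have a2 := mul_nonneg y0 (sub_nonneg.2 y1)
  have a3 := mul_nonneg (sub_nonneg.2 x1) (sub_nonneg.2 y1)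
  have a4 := mul_nonneg y0 (sub_nonneg.2 x1)
  have a5 := mul_nonneg x0 (sub_nonneg.2 y1)
  refine ⟨?_, fun h => ?_, fun h => ?_⟩
  · unfold nr kpr
    nlinarith
  · unfold nr kpr
    nlinarith
  · have a6 := mul_nonneg y0 (sub_nonneg.2 h)
    unfold nr kpr
    nlinarith

end

end Pool.Agent.Helper83.OL
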